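import Pool.Agent.Lib.MP_33b3f9_ag.M4.ThDefs

/-!
Finite adeles of `ℚ` by hand, the additive character `psi`, the adelic symplectic space.
-/

set_option autoImplicit false

namespace M8.B2

open M4

open Matrix

noncomputable section

instance factPrimes (l : Nat.Primes) : Fact l.1.Prime := ⟨l.2⟩

/-- Index set of the lattice basis. -/
abbrev ν : Type := Fin 8 ⊕ Fin 8

theorem norm_nat_le (l : Nat.Primes) (N : ℕ) : ‖(N : ℚ_[l])‖ ≤ 1 := by
  have := Padic.norm_int_le_one (p := l) (N : ℤ)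
  simpa using this

/-- The finite adeles. -/
def Af : Subalgebra ℚ (∀ l : Nat.Primes, ℚ_[l]) where
  carrier := {x | ∃ N : ℕ, 0 < N ∧ ∀ l : Nat.Primes, ‖(N : ℚ_[l]) * x l‖ ≤ 1}
  mul_mem' := by
    rintro x y ⟨N, hN, hx⟩ ⟨M, hM, hy⟩
    refine ⟨N * M, Nat.mul_pos hN hM, fun l => ?_⟩
    have : ((N * M : ℕ) : ℚ_[l]) * (x * y) l = (N * x l) * (M * y l) := by
      simp only [Nat.cast_mul, Pi.mul_apply]; ring
    rw [this, norm_mul]
    exact mul_le_one₀ (hx l) (norm_nonneg _) (hy l)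
  add_mem' := by
    rintro x y ⟨N, hN, hx⟩ ⟨M, hM, hy⟩
    refine ⟨N * M, Nat.mul_pos hN hM, fun l => ?_⟩
    have : ((N * M : ℕ) : ℚ_[l]) * (x + y) l = M * (N * x l) + N * (M * y l) := by
      simp only [Nat.cast_mul, Pi.add_apply]; ring
    rw [this]
    refine (Padic.nonarchimedean _ _).trans (max_le ?_ ?_)
    · rw [norm_mul]; exact mul_le_one₀ (norm_nat_le l M) (norm_nonneg _) (hx l)
    · rw [norm_mul]; exact mul_le_one₀ (norm_nat_le l N) (norm_nonneg _) (hy l)
  algebraMap_mem' := by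
    intro q
    refine ⟨q.den, q.den_pos, fun l => ?_⟩
    have : (q.den : ℚ_[l]) * (algebraMap ℚ (∀ l : Nat.Primes, ℚ_[l]) q) l = (q.num : ℚ_[l]) := by
      simp only [Pi.algebraMap_apply, eq_ratCast]
      rw [mul_comm]
      exact_mod_cast Rat.mul_den_eq_num q
    rw [this]
    exact Padic.norm_int_le_one _

/-- The component at `l`. -/
def cp (l : Nat.Primes) : Af →ₐ[ℚ] ℚ_[l] := (Pi.evalAlgHom ℚ _ l).comp Af.val

theorem cp_apply (l : Nat.Primes) (x : Af) : cp l x = x.1 l := rfl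

theorem Af_ext {x y : Af} (h : ∀ l, cp l x = cp l y) : x = y := Subtype.ext (funext h)

/-- A rational number as an adele. -/
def qA (q : ℚ) : Af := algebraMap ℚ Af q

@[simp] theorem cp_qA (l : Nat.Primes) (q : ℚ) : cp l (qA q) = (q : ℚ_[l]) := by
  simp [qA]

/-- The integral adeles. -/
def Zh : Subring Af where
  carrier := {x | ∀ l, ‖cp l x‖ ≤ 1}
  mul_mem' := fun {x y} hx hy l => by
    rw [map_mul, norm_mul]; exact mul_le_one₀ (hx l) (norm_nonneg _) (hy l)
  one_mem' := fun l => by simp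
  add_mem' := fun {x y} hx hy l => by
    rw [map_add]; exact (Padic.nonarchimedean _ _).trans (max_le (hx l) (hy l))
  zero_mem' := fun l => by simp
  neg_mem' := fun {x} hx l => by rw [map_neg, norm_neg]; exact hx l

theorem mem_Zh {x : Af} : x ∈ Zh ↔ ∀ l, ‖cp l x‖ ≤ 1 := Iff.rfl

theorem exists_nsmul_mem (x : Af) : ∃ N : ℕ, 0 < N ∧ (N : Af) * x ∈ Zh := by
  obtain ⟨N, hN, h⟩ := x.2
  exact ⟨N, hN, fun l => by simpa [cp_apply] using h l⟩

/-- An element of `ℚ_l` as an adele with zero components elsewhere. -/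
def inc (l : Nat.Primes) : ℚ_[l] →+ Af where
  toFun s := ⟨Pi.single l s, by
    obtain ⟨n, hn⟩ : ∃ n : ℕ, ‖((l.1 ^ n : ℕ) : ℚ_[l]) * s‖ ≤ 1 := by
      obtain ⟨n, hn⟩ := pow_unbounded_of_one_lt ‖s‖ (show (1 : ℝ) < l.1 by exact_mod_cast l.2.one_lt)
      refine ⟨n, ?_⟩
      have hp : (0 : ℝ) < (l.1 : ℝ) ^ n := by have := l.2.pos; positivity
      rw [norm_mul, Nat.cast_pow, norm_pow, Padic.norm_p, inv_pow, inv_mul_le_iff₀ hp, mul_one]
      exact hn.le
    refine ⟨l.1 ^ n, pow_pos l.2.pos n, fun l' => ?_⟩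
    by_cases h : l' = l
    · subst h; simpa using hn
    · simp [Pi.single_eq_of_ne h]⟩
  map_zero' := Subtype.ext (by simp)
  map_add' s t := Subtype.ext (by simp [Pi.single_add])

@[simp] theorem cp_inc_self (l : Nat.Primes) (s : ℚ_[l]) : cp l (inc l s) = s := by
  simp [cp_apply, inc]

theorem cp_inc_ne {l l' : Nat.Primes} (h : l' ≠ l) (s : ℚ_[l]) : cp l' (inc l s) = 0 := by
  simp [cp_apply, inc, Pi.single_eq_of_ne h]

theorem exists_int_appr (N : ℕ) (hN : 0 < N) (x : Af) (hx : x ∈ Zh) :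
    ∃ a : ℤ, ∀ l : Nat.Primes, ‖cp l x - a‖ ≤ ‖(N : ℚ_[l])‖ := by
  induction N using induction_on_primes generalizing x with
  | zero => omega
  | one => exact ⟨0, fun l => by simpa using hx l⟩
  | prime_mul q N hq ih =>
    have hN0 : 0 < N := Nat.pos_of_mul_pos_left hN
    obtain ⟨Q, rfl⟩ : ∃ Q : Nat.Primes, Q.1 = q := ⟨⟨q, hq⟩, rfl⟩
    set q : ℕ := Q.1 with hqQ
    obtain ⟨a0, ha0⟩ : ∃ a0 : ℤ, ‖cp Q x - a0‖ ≤ ‖(q : ℚ_[Q])‖ := by
      let z : ℤ_[Q] := ⟨cp Q x, hx Q⟩
      have h1 := PadicInt.appr_spec 1 z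
      rw [← PadicInt.norm_le_pow_iff_mem_span_pow] at h1
      refine ⟨z.appr 1, ?_⟩
      have h2 : ‖(q : ℚ_[Q])‖ = ((q : ℝ))⁻¹ := Padic.norm_p (p := Q)
      rw [h2]
      simpa [PadicInt.norm_def, z] using h1
    -- `x - a0` is divisible by `q` in the integral adeles after correcting at the other primes
    have hq0 : (q : ℚ) ≠ 0 := by exact_mod_cast hq.ne_zero
    have hy : qA (q : ℚ)⁻¹ * (x - a0) ∈ Zh := by
      intro l
      have hql : (q : ℚ_[l]) ≠ 0 := by exact_mod_cast hq.ne_zero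
      rw [map_mul, cp_qA, map_sub, map_intCast, norm_mul]
      push_cast
      rw [norm_inv, inv_mul_le_iff₀ (norm_pos_iff.2 hql), mul_one]
      by_cases h : l = Q
      · subst h; exact ha0
      · have h1 : ‖(q : ℚ_[l])‖ = 1 := by
          have := (Padic.norm_natCast_eq_one_iff (p := l) (n := q)).2
            ((Nat.coprime_primes l.2 hq).2 fun e => h (Subtype.ext e))
          exact this
        rw [h1, sub_eq_add_neg]
        refine (Padic.nonarchimedean _ _).trans (max_le (hx l) ?_)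
        rw [norm_neg]; exact Padic.norm_int_le_one _
    obtain ⟨b, hb⟩ := ih hN0 _ hy
    refine ⟨a0 + q * b, fun l => ?_⟩
    have hql : (q : ℚ_[l]) ≠ 0 := by exact_mod_cast hq.ne_zero
    have h1 := hb l
    rw [map_mul, cp_qA, map_sub, map_intCast] at h1
    have : cp l x - ((a0 + q * b : ℤ) : ℚ_[l]) =
        (q : ℚ_[l]) * ((((q : ℚ)⁻¹ : ℚ) : ℚ_[l]) * (cp l x - a0) - b) := by
      push_cast; field_simp; ring
    rw [this, norm_mul, Nat.cast_mul, norm_mul]
    exact mul_le_mul_of_nonneg_left h1 (norm_nonneg _)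

theorem exists_rat (x : Af) : ∃ q : ℚ, x - qA q ∈ Zh := by
  obtain ⟨N, hN, h⟩ := exists_nsmul_mem x
  obtain ⟨a, ha⟩ := exists_int_appr N hN _ h
  refine ⟨a / N, fun l => ?_⟩
  have hNl : (N : ℚ_[l]) ≠ 0 := by exact_mod_cast hN.ne'
  have h1 := ha l
  rw [map_mul, map_natCast] at h1
  have : cp l (x - qA (a / N)) = (N : ℚ_[l])⁻¹ * (N * cp l x - a) := by
    rw [map_sub, cp_qA]; push_cast; field_simp
  rw [this, norm_mul, norm_inv, inv_mul_le_iff₀ (norm_pos_iff.2 hNl), mul_one]
  exact h1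

theorem qA_mem_Zh {q : ℚ} : qA q ∈ Zh ↔ ∃ a : ℤ, q = a := by
  constructor
  · intro h
    refine ⟨q.num, ?_⟩
    have hd : q.den = 1 := by
      by_contra hd
      obtain ⟨l, hl, hld⟩ := Nat.exists_prime_and_dvd hd
      have h1 := h ⟨l, hl⟩
      rw [cp_qA] at h1
      have : Fact l.Prime := ⟨hl⟩
      have h2 := PadicInt.isUnit_den (p := l) q h1
      rw [PadicInt.isUnit_iff, PadicInt.norm_natCast_eq_one_iff] at h2
      exact hl.one_lt.ne' (Nat.Coprime.eq_one_of_dvd h2 hld)
    exact (Rat.coe_int_num_of_den_eq_one hd).symm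
  · rintro ⟨a, rfl⟩ l
    rw [cp_qA]; push_cast; exact Padic.norm_int_le_one _

/-- A rational number congruent to `x` modulo the integral adeles. -/
def rat (x : Af) : ℚ := (exists_rat x).choose

theorem rat_spec (x : Af) : x - qA (rat x) ∈ Zh := (exists_rat x).choose_spec

/-- The additive character of the adeles with kernel the integral adeles. -/
def psi (x : Af) : ℂ := ee ((rat x : ℚ) : ℂ)

theorem ee_add' (s t : ℂ) : ee (s + t) = ee s * ee t := by
  simp [ee, mul_add, Complex.exp_add]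

theorem ee_int' (a : ℤ) : ee a = 1 := by
  rw [ee, mul_comm]; exact Complex.exp_int_mul_two_pi_mul_I a

theorem psi_eq {x : Af} {q : ℚ} (h : x - qA q ∈ Zh) : psi x = ee (q : ℂ) := by
  have h1 : qA (rat x - q) ∈ Zh := by
    have := Zh.sub_mem h (rat_spec x)
    simpa [qA] using this
  obtain ⟨a, ha⟩ := qA_mem_Zh.1 h1
  have : rat x = q + a := by linarith
  rw [psi, this]; push_cast; rw [ee_add', ee_int', mul_one]

theorem psi_qA (q : ℚ) : psi (qA q) = ee (q : ℂ) := psi_eq (by simp)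

theorem psi_add (x y : Af) : psi (x + y) = psi x * psi y := by
  have h : x + y - qA (rat x + rat y) ∈ Zh := by
    have := Zh.add_mem (rat_spec x) (rat_spec y)
    convert this using 1
    simp only [qA, map_add]; ring
  rw [psi_eq h]; push_cast; rw [ee_add']; rfl

theorem psi_eq_one {x : Af} : psi x = 1 ↔ x ∈ Zh := by
  constructor
  · intro h
    rw [psi, ee, Complex.exp_eq_one_iff] at h
    obtain ⟨n, hn⟩ := h
    have h2 : (2 * Real.pi * Complex.I : ℂ) ≠ 0 := Complex.two_pi_I_ne_zero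
    have h3 : ((rat x : ℚ) : ℂ) = n := mul_left_cancel₀ h2 (by rw [hn]; ring)
    have h4 : rat x = n := by exact_mod_cast h3
    have := Zh.add_mem (rat_spec x) (qA_mem_Zh.2 ⟨n, h4⟩)
    simpa using this
  · intro h
    rw [psi_eq (q := 0) (by simpa [qA] using h)]
    simp [ee]

@[simp] theorem psi_zero : psi 0 = 1 := psi_eq_one.2 Zh.zero_mem

theorem psi_ne (x : Af) : psi x ≠ 0 := Complex.exp_ne_zero _

theorem psi_neg (x : Af) : psi (-x) = (psi x)⁻¹ :=
  eq_inv_of_mul_eq_one_left (by rw [← psi_add]; simp)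

theorem psi_nsmul (n : ℕ) (x : Af) : psi ((n : Af) * x) = psi x ^ n := by
  induction n with
  | zero => simp
  | succ n ih => rw [Nat.cast_succ, add_mul, one_mul, psi_add, ih, pow_succ]

theorem psi_congr {x y : Af} (h : x - y ∈ Zh) : psi x = psi y := by
  have := psi_add (x - y) y
  rwa [sub_add_cancel, psi_eq_one.2 h, one_mul] at this

theorem exists_psi_pow (x : Af) : ∃ N : ℕ, 0 < N ∧ psi x ^ N = 1 := by
  obtain ⟨N, hN, h⟩ := exists_nsmul_mem x
  exact ⟨N, hN, by rw [← psi_nsmul, psi_eq_one.2 h]⟩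

/-- The adelic vector space. -/
abbrev VA : Type := ν → Af

/-- The integral adelic vectors. -/
def TA : AddSubgroup VA := AddSubgroup.pi Set.univ fun _ => Zh.toAddSubgroup

theorem mem_TA {x : VA} : x ∈ TA ↔ ∀ i, x i ∈ Zh := by simp [TA, AddSubgroup.mem_pi]

/-- The symplectic form over a commutative ring. -/
def EB {R : Type} [CommRing R] (x y : ν → R) : R :=
  ∑ i, (x (Sum.inl i) * y (Sum.inr i) - x (Sum.inr i) * y (Sum.inl i))

section
variable {R : Type} [CommRing R]

theorem EB_add_left (x y z : ν → R) : EB (x + y) z = EB x z + EB y z := by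
  simp only [EB, Pi.add_apply, ← Finset.sum_add_distrib]
  exact Finset.sum_congr rfl fun i _ => by ring

theorem EB_add_right (x y z : ν → R) : EB x (y + z) = EB x y + EB x z := by
  simp only [EB, Pi.add_apply, ← Finset.sum_add_distrib]
  exact Finset.sum_congr rfl fun i _ => by ring

theorem EB_smul_left (c : R) (x y : ν → R) : EB (c • x) y = c * EB x y := by
  simp only [EB, Pi.smul_apply, smul_eq_mul, Finset.mul_sum]
  exact Finset.sum_congr rfl fun i _ => by ring

theorem EB_smul_right (c : R) (x y : ν → R) : EB x (c • y) = c * EB x y := by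
  simp only [EB, Pi.smul_apply, smul_eq_mul, Finset.mul_sum]
  exact Finset.sum_congr rfl fun i _ => by ring

theorem EB_swap (x y : ν → R) : EB y x = -EB x y := by
  simp only [EB, ← Finset.sum_neg_distrib]
  exact Finset.sum_congr rfl fun i _ => by ring

@[simp] theorem EB_self (x : ν → R) : EB x x = 0 := by
  simp only [EB]; exact Finset.sum_eq_zero fun i _ => by ring

@[simp] theorem EB_zero_left (x : ν → R) : EB 0 x = 0 := by simp [EB]

@[simp] theorem EB_zero_right (x : ν → R) : EB x 0 = 0 := by simp [EB]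

theorem EB_neg_left (x y : ν → R) : EB (-x) y = -EB x y := by
  simpa using EB_smul_left (-1) x y

theorem EB_neg_right (x y : ν → R) : EB x (-y) = -EB x y := by
  simpa using EB_smul_right (-1) x y

theorem EB_sub_left (x y z : ν → R) : EB (x - y) z = EB x z - EB y z := by
  rw [sub_eq_add_neg, EB_add_left, EB_neg_left, sub_eq_add_neg]

theorem EB_sub_right (x y z : ν → R) : EB x (y - z) = EB x y - EB x z := by
  rw [sub_eq_add_neg, EB_add_right, EB_neg_right, sub_eq_add_neg]

theorem map_EB {S F : Type} [CommRing S] [FunLike F R S] [RingHomClass F R S] (f : F)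
    (x y : ν → R) : f (EB x y) = EB (fun i => f (x i)) (fun i => f (y i)) := by
  simp [EB]

end

theorem EB_mem {x y : VA} (hx : x ∈ TA) (hy : y ∈ TA) : EB x y ∈ Zh :=
  Zh.sum_mem fun _ _ => Zh.sub_mem (Zh.mul_mem (mem_TA.1 hx _) (mem_TA.1 hy _))
    (Zh.mul_mem (mem_TA.1 hx _) (mem_TA.1 hy _))

theorem exists_nsmul_mem_TA (x : VA) : ∃ N : ℕ, 0 < N ∧ N • x ∈ TA := by
  choose N hN h using fun i => exists_nsmul_mem (x i)
  refine ⟨∏ i, N i, Finset.prod_pos fun i _ => hN i, mem_TA.2 fun i => ?_⟩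
  obtain ⟨c, hc⟩ := Finset.dvd_prod_of_mem N (Finset.mem_univ i)
  rw [hc, Pi.smul_apply, nsmul_eq_mul, Nat.cast_mul, mul_comm (N i : Af), mul_assoc]
  exact Zh.mul_mem (natCast_mem Zh c) (h i)

/-- A rational vector as an adelic vector. -/
def qV (q : ν → ℚ) : VA := fun i => qA (q i)

/-- A rational vector congruent to `x` modulo the integral vectors. -/
def ratV (x : VA) : ν → ℚ := fun i => rat (x i)

theorem ratV_spec (x : VA) : x - qV (ratV x) ∈ TA := mem_TA.2 fun i => rat_spec (x i)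

/-- The component of an adelic vector at `l`. -/
def cV (l : Nat.Primes) (x : VA) : ν → ℚ_[l] := fun i => cp l (x i)

/-- An `l`-adic vector as an adelic vector. -/
def iV (l : Nat.Primes) : (ν → ℚ_[l]) →+ VA where
  toFun s i := inc l (s i)
  map_zero' := by funext i; simp
  map_add' s t := by funext i; simp

/-- The Heisenberg operator of level `4 n` on functions on the adelic space. -/
def UA (n : ℕ) (y : VA) (f : VA → ℂ) : VA → ℂ :=
  fun x => psi ((2 * n : ℕ) * EB y x) * f (x + y)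

end

end M8.B2
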