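import Mathlib

/-!
Lower bound for the dimension of a representation of a Heisenberg group.
-/

set_option autoImplicit false

namespace M8.B2

open Matrix Polynomial

noncomputable section

/-- The restrictions of the operators `U (r i)` to `S` are linearly independent: from
`∑ c i • U (r i) = 0` on `S`, applied to `U y f`, get `∑ c i * b (r i) y • U (r i) f = 0` for all
`y`; evaluate at a point and use `linearIndependent_monoidHom` for the characters
`y ↦ b (r i) y` of `Multiplicative H`. -/
theorem svn {k Z H ι : Type} [Field k] [AddCommGroup H] [Fintype ι]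
    (S : Submodule k (Z → k)) [FiniteDimensional k S] (hS : S ≠ ⊥)
    (U : H → (Z → k) →ₗ[k] (Z → k)) (b : H → H → k) (hb0 : ∀ x, b x 0 = 1)
    (hb : ∀ x y z, b x (y + z) = b x y * b x z)
    (hcomm : ∀ x y, ∀ f ∈ S, U x (U y f) = b x y • U y (U x f))
    (hinj : ∀ x f, U x f = 0 → f = 0) (hst : ∀ x, ∀ f ∈ S, U x f ∈ S)
    (r : ι → H) (hr : ∀ i j, (∀ y, b (r i) y = b (r j) y) → i = j) :
    Fintype.card ι ≤ Module.finrank k S ^ 2 := by
  obtain ⟨f, hf, hf0⟩ := (Submodule.ne_bot_iff S).1 hS
  let χ : ι → Multiplicative H →* k := fun i =>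
    { toFun := fun y => b (r i) y.toAdd
      map_one' := hb0 _
      map_mul' := fun y z => hb _ _ _ }
  have hχ : LinearIndependent k fun i => (χ i : Multiplicative H → k) :=
    (linearIndependent_monoidHom (Multiplicative H) k).comp χ fun i j e =>
      hr i j fun y => DFunLike.congr_fun e (Multiplicative.ofAdd y)
  have hl : LinearIndependent k fun i => (U (r i)).restrict (hst (r i)) := by
    rw [Fintype.linearIndependent_iff] at hχ
    refine (Fintype.linearIndependent_iff (R := k) (M := S →ₗ[k] S)).2 fun c hc i => ?_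
    have h1 : ∀ y, ∑ i, (c i * b (r i) y) • U (r i) f = 0 := fun y => by
      refine hinj y _ ?_
      have e := congrArg Subtype.val (LinearMap.congr_fun hc ⟨U y f, hst y f hf⟩)
      simp only [LinearMap.sum_apply, LinearMap.smul_apply, AddSubmonoidClass.coe_finsetSum,
        SetLike.val_smul, LinearMap.coe_restrict_apply, LinearMap.zero_apply,
        ZeroMemClass.coe_zero, hcomm _ y f hf, smul_smul] at e
      simpa only [map_sum, map_smul] using e
    obtain ⟨z, hz⟩ := Function.ne_iff.1 fun e => hf0 (hinj (r i) f e)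
    have h2 := hχ (fun i => c i * U (r i) f z) (funext fun y => by
      have e := congrFun (h1 y.toAdd) z
      simp only [Finset.sum_apply, Pi.smul_apply, smul_eq_mul, Pi.zero_apply] at e ⊢
      refine Eq.trans (Finset.sum_congr rfl fun j _ => ?_) e
      change _ * b (r j) y.toAdd = _
      ring) i
    exact (mul_eq_zero.1 h2).resolve_right hz
  have h := hl.fintype_card_le_finrank
  rwa [Module.finrank_linearMap, ← sq] at h

/-- Averaging over commuting operators of finite order. `I` is a set of integral vectors, `rd` a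
reduction map. Induction on `s` with the projectors `N⁻¹ • ∑ j < N, T i ^ j`. -/
theorem exists_fixed_lift {V W α k : Type} [AddCommGroup V] [Module ℂ V] [Field k]
    [AddCommGroup W] [Module k W] (I : AddSubgroup V) (rd : V → W)
    (hadd : ∀ f ∈ I, ∀ g ∈ I, rd (f + g) = rd f + rd g) {N : ℕ} (hN : (N : k) ≠ 0)
    (hinv : ∀ f ∈ I, (N : ℂ)⁻¹ • f ∈ I)
    (T : α → V →ₗ[ℂ] V) (hT : ∀ i, ∀ f ∈ I, T i f ∈ I)
    (hc : ∀ i j, ∀ f ∈ I, T i (T j f) = T j (T i f)) (ho : ∀ i, ∀ f ∈ I, (T i ^ N) f = f)
    (w : W) (hw : ∀ i, ∀ f ∈ I, rd f = w → rd (T i f) = w) {f : V} (hf : f ∈ I) (hfw : rd f = w)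
    (s : Finset α) : ∃ g ∈ I, rd g = w ∧ ∀ i ∈ s, T i g = g := by
  classical
  have hN0 : (N : ℂ) ≠ 0 := by
    rintro e
    rw [Nat.cast_eq_zero] at e
    exact hN (by rw [e, Nat.cast_zero])
  have h0 : rd 0 = 0 := by simpa using hadd 0 I.zero_mem 0 I.zero_mem
  have hsum : ∀ (u : ℕ → V) (x : W), (∀ j, u j ∈ I) → (∀ j, rd (u j) = x) → ∀ n : ℕ,
      rd (∑ j ∈ Finset.range n, u j) = (n : k) • x := fun u x hu hx n => by
    induction n with
    | zero => simp [h0]
    | succ n ih =>
      rw [Finset.sum_range_succ, hadd _ (sum_mem fun j _ => hu j) _ (hu n), ih, hx,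
        Nat.cast_succ, add_smul, one_smul]
  induction s using Finset.induction_on with
  | empty => exact ⟨f, hf, hfw, by simp⟩
  | insert i s _ ih =>
    obtain ⟨g, hg, hgw, hs⟩ := ih
    have hp : ∀ j : ℕ, (T i ^ j) g ∈ I ∧ rd ((T i ^ j) g) = w ∧
        ∀ i' ∈ s, T i' ((T i ^ j) g) = (T i ^ j) g := fun j => by
      induction j with
      | zero => exact ⟨hg, hgw, hs⟩
      | succ j ih =>
        rw [pow_succ', Module.End.mul_apply]
        exact ⟨hT i _ ih.1, hw i _ ih.1 ih.2.1, fun i' hi' => by
          rw [hc _ _ _ ih.1, ih.2.2 i' hi']⟩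
    have hG : ∑ j ∈ Finset.range N, (T i ^ j) g ∈ I := sum_mem fun j _ => (hp j).1
    refine ⟨(N : ℂ)⁻¹ • ∑ j ∈ Finset.range N, (T i ^ j) g, hinv _ hG, ?_, fun i' hi' => ?_⟩
    · have e := hsum _ _ (fun _ => hinv _ hG) (fun _ => rfl) N
      rw [Finset.sum_const, Finset.card_range, ← Nat.cast_smul_eq_nsmul ℂ, smul_inv_smul₀ hN0,
        hsum _ w (fun j => (hp j).1) fun j => (hp j).2.1] at e
      exact (smul_right_injective W hN e).symm
    · rw [map_smul, map_sum]
      refine congrArg _ ?_
      rcases Finset.mem_insert.1 hi' with rfl | hi'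
      · have e := (Finset.sum_range_succ' (fun j => (T i' ^ j) g) N).symm.trans
          (Finset.sum_range_succ (fun j => (T i' ^ j) g) N)
        rw [ho _ g hg, pow_zero, Module.End.one_apply, add_left_inj] at e
        simpa only [pow_succ', Module.End.mul_apply] using e
      · exact Finset.sum_congr rfl fun j _ => (hp j).2.2 i' hi'

end

end M8.B2
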