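import Pool.Agent.Lib.MP_33b3f9_ag.M8.B2.Lat
import Pool.Agent.Lib.MP_33b3f9_ag.M8.B2.Mu

/-!
The kernel of the reduction is cut out by an integral idempotent.
-/

set_option autoImplicit false

namespace M8.B2

open M4

open Matrix Polynomial

noncomputable section

variable {p : ℕ} [Fact p.Prime]

/-- A linear map has bounded denominators. -/
theorem faceA_bdd {m n : Type} [Fintype m] [DecidableEq m] [Fintype n]
    (f : (m → ℚ_[p]) →ₗ[ℚ_[p]] (n → ℚ_[p])) :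
    ∃ a : ℕ, ∀ x : m → ℚ_[p], (∀ i, ‖x i‖ ≤ 1) → ∀ k, ‖(p : ℚ_[p]) ^ a * f x k‖ ≤ 1 := by
  choose a ha using fun q : m × n => lat_pow_le p (f (Pi.single q.1 1) q.2)
  refine ⟨Finset.univ.sup a, fun x hx k => ?_⟩
  have h : f x k = ∑ i, x i * f (Pi.single i 1) k := by
    conv_lhs => rw [pi_eq_sum_univ' x, map_sum, Finset.sum_apply]
    simp only [map_smul, Pi.smul_apply, smul_eq_mul]
  rw [h, Finset.mul_sum]
  refine IsUltrametricDist.norm_sum_le_of_forall_le_of_nonneg zero_le_one fun i _ => ?_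
  rw [mul_left_comm, norm_mul]
  exact mul_le_one₀ (hx i) (norm_nonneg _) (ha (i, k) _ (Finset.le_sup (Finset.mem_univ _)))

theorem faceA_sub (g h : Matrix ν ν ℤ_[p]) : mQ (g - h) = mQ g - mQ h :=
  map_sub (PadicInt.Coe.ringHom (p := p)).mapMatrix g h

theorem faceA_zero : mQ (0 : Matrix ν ν ℤ_[p]) = 0 :=
  map_zero (PadicInt.Coe.ringHom (p := p)).mapMatrix

theorem faceA_smul (c : ℤ_[p]) (g : Matrix ν ν ℤ_[p]) : mQ (c • g) = (c : ℚ_[p]) • mQ g := by
  ext i j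
  simp [mQ]

theorem faceA_inj {g h : Matrix ν ν ℤ_[p]} (e : mQ g = mQ h) : g = h := by
  ext i j
  exact Subtype.ext (congrFun (congrFun e i) j)

/-- Take a basis `v₁ … v_r` of `U` and `a` such that `∑ c_i v_i` integral implies `p ^ a c_i`
integral (left inverse matrix), with integral `v_i`. The classes of `p ^ (-(j + a)) ∑ c_i v_i`,
`0 ≤ c_i < p ^ j`, are distinct, so `p ^ (r j) ≤ p ^ (8 (j + a))` for all `j`. Finiteness from
`W_card`. -/
theorem finrank_le_eight (C : AddSubgroup (WW p))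
    (hC : ∀ j, Nat.card {y : WW p // p ^ j • y = 0 ∧ y ∈ C} ≤ p ^ (8 * j))
    (U : Submodule ℚ_[p] (ν → ℚ_[p])) (hU : ∀ v ∈ U, (v : WW p) ∈ C) :
    Module.finrank ℚ_[p] U ≤ 8 := by
  have hp : p.Prime := Fact.out
  have hp0 : ∀ j : ℕ, (p : ℚ_[p]) ^ j ≠ 0 := fun j => pow_ne_zero _ (by exact_mod_cast hp.ne_zero)
  obtain ⟨r, hr⟩ : ∃ r, r = Module.finrank ℚ_[p] U := ⟨_, rfl⟩
  let A : (Fin r → ℚ_[p]) →ₗ[ℚ_[p]] (ν → ℚ_[p]) :=
    U.subtype ∘ₗ (Module.finBasisOfFinrankEq ℚ_[p] U hr.symm).equivFun.symm.toLinearMap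
  have hA : ∀ c, A c ∈ U := fun c => Subtype.prop _
  obtain ⟨L, hL⟩ := A.exists_leftInverse_of_injective (LinearMap.ker_eq_bot.2
    (U.injective_subtype.comp (LinearEquiv.injective _)))
  have hL' : ∀ c, L (A c) = c := fun c => LinearMap.congr_fun hL c
  obtain ⟨a, ha⟩ := faceA_bdd A
  obtain ⟨b, hb⟩ := faceA_bdd L
  have key : ∀ j, r * j ≤ 8 * (j + b + a) := by
    intro j
    have hfin : Finite {y : WW p // p ^ (j + b + a) • y = 0} :=
      Nat.finite_of_card_ne_zero (by rw [W_card]; exact pow_ne_zero _ hp.ne_zero)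
    have hfin' : Finite {y : WW p // p ^ (j + b + a) • y = 0 ∧ y ∈ C} :=
      Finite.of_injective (β := {y : WW p // p ^ (j + b + a) • y = 0}) (fun y => ⟨y.1, y.2.1⟩)
        fun y y' e => Subtype.ext (Subtype.mk.inj e)
    let f : (Fin r → Fin (p ^ j)) → {y : WW p // p ^ (j + b + a) • y = 0 ∧ y ∈ C} := fun c =>
      ⟨(((p : ℚ_[p]) ^ (j + b))⁻¹ • A fun i => ((c i : ℕ) : ℚ_[p]) : ν → ℚ_[p]), by
        rw [← QuotientAddGroup.mk_nsmul, QuotientAddGroup.eq_zero_iff,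
          ← Nat.cast_smul_eq_nsmul ℚ_[p], smul_smul, Nat.cast_pow, pow_add _ (j + b),
          mul_right_comm, mul_inv_cancel₀ (hp0 _), one_mul]
        exact fun k => ha _ (fun i => by simpa using Padic.norm_int_le_one ((c i : ℕ) : ℤ)) k,
        hU _ (U.smul_mem _ (hA _))⟩
    have hf : Function.Injective f := by
      intro c c' h
      funext i
      have h1 := hb _ (QuotientAddGroup.eq.1 (congrArg Subtype.val h)) i
      rw [map_add, map_neg, map_smul, map_smul, hL', hL'] at h1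
      have h2 : ‖((((c' i : ℕ) : ℤ) - (c i : ℕ) : ℤ) : ℚ_[p])‖ ≤ (p : ℝ) ^ (-j : ℤ) := by
        have e : ((((c' i : ℕ) : ℤ) - (c i : ℕ) : ℤ) : ℚ_[p]) = (p : ℚ_[p]) ^ j * ((p : ℚ_[p]) ^ b *
            (-(((p : ℚ_[p]) ^ (j + b))⁻¹ • fun i => ((c i : ℕ) : ℚ_[p])) +
              ((p : ℚ_[p]) ^ (j + b))⁻¹ • fun i => ((c' i : ℕ) : ℚ_[p]) : Fin r → ℚ_[p]) i) := by
          simp only [Pi.add_apply, Pi.neg_apply, Pi.smul_apply, smul_eq_mul]
          rw [← mul_assoc, ← pow_add, mul_add, mul_neg, mul_inv_cancel_left₀ (hp0 _),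
            mul_inv_cancel_left₀ (hp0 _)]
          push_cast
          ring
        rw [e, norm_mul, norm_pow, Padic.norm_p, inv_pow, _root_.zpow_neg, zpow_natCast]
        exact mul_le_of_le_one_right (by positivity) h1
      rw [Padic.norm_int_le_pow_iff_dvd, ← Nat.cast_pow] at h2
      have h4 : ((c' i : ℕ) : ℤ) - (c i : ℕ) = 0 :=
        Int.eq_zero_of_abs_lt_dvd h2 (by
          have := (c i).2
          have := (c' i).2
          rw [abs_lt]
          constructor <;> omega)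
      exact Fin.ext (by omega)
    have h1 := (Nat.card_le_card_of_injective f hf).trans (hC _)
    rw [Nat.card_fun, Nat.card_fin, Nat.card_fin, ← pow_mul, mul_comm j] at h1
    exact (Nat.pow_le_pow_iff_right hp.one_lt).1 h1
  by_contra hc
  have h5 : 9 ≤ r := by omega
  have h6 := key (8 * (b + a) + 1)
  have h7 := Nat.mul_le_mul_right (8 * (b + a) + 1) h5
  omega

/-- A similitude `g` with multiplier `χ ≠ 0, 1` such that `g - 1` has rank at most eight. With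
`gᵀ J g = χ J` (`sim_matrix`), `(g - 1)ᵀ J g = J (χ - g)`, so `g - χ` has the same rank; the two
kernels have dimension at least eight and meet in zero. -/
theorem sim_quadratic {k : Type} [Field k] {g : Matrix ν ν k} {χ : k} (h0 : χ ≠ 0) (h1 : χ ≠ 1)
    (hg : ∀ x y, EB (g *ᵥ x) (g *ᵥ y) = χ * EB x y) (hr : (g - 1).rank ≤ 8) :
    (g - 1) * (g - χ • 1) = 0 ∧ (g - 1).rank = 8 := by
  have hJ := sim_matrix.1 hg
  have hJJ := Matrix.J_squared (Fin 8) k
  have h2 : g - χ • 1 = Matrix.J (Fin 8) k * ((g - 1)ᵀ * (Matrix.J (Fin 8) k * g)) := by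
    rw [transpose_sub, transpose_one, Matrix.sub_mul, Matrix.one_mul, ← Matrix.mul_assoc gᵀ, hJ,
      Matrix.mul_sub, Matrix.mul_smul, ← Matrix.mul_assoc, hJJ]
    simp only [smul_neg, Matrix.neg_mul, Matrix.one_mul]
    abel
  have h3 : (g - χ • 1).rank ≤ 8 := by
    rw [h2]
    exact (rank_mul_le_right _ _).trans ((rank_mul_le_left _ _).trans
      ((rank_transpose _).le.trans hr))
  have h8 : Module.finrank k (ν → k) = 16 := by simp
  have e1 := (g - 1).mulVecLin.finrank_range_add_finrank_ker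
  have e2 := (g - χ • 1).mulVecLin.finrank_range_add_finrank_ker
  have e3 := Submodule.finrank_sup_add_finrank_inf_eq (LinearMap.ker (g - 1).mulVecLin)
    (LinearMap.ker (g - χ • 1).mulVecLin)
  have e4 : LinearMap.ker (g - 1).mulVecLin ⊓ LinearMap.ker (g - χ • 1).mulVecLin = ⊥ := by
    rw [Submodule.eq_bot_iff]
    rintro x ⟨hx, hx'⟩
    have a1 : (g - 1) *ᵥ x = 0 := hx
    have a2 : (g - χ • 1) *ᵥ x = 0 := hx'
    rw [sub_mulVec, one_mulVec, sub_eq_zero] at a1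
    rw [sub_mulVec, smul_mulVec, one_mulVec, a1] at a2
    have a3 : (1 - χ) • x = 0 := by rw [sub_smul, one_smul, a2]
    exact (smul_eq_zero.1 a3).resolve_left (sub_ne_zero.2 h1.symm)
  have e5 := Submodule.finrank_le
    (LinearMap.ker (g - 1).mulVecLin ⊔ LinearMap.ker (g - χ • 1).mulVecLin)
  rw [e4, finrank_bot] at e3
  unfold Matrix.rank at hr h3 ⊢
  have e6 : LinearMap.ker (g - 1).mulVecLin ⊔ LinearMap.ker (g - χ • 1).mulVecLin = ⊤ :=
    Submodule.eq_top_of_finrank_eq (by omega)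
  refine ⟨Matrix.ext_iff_mulVec.2 fun x => ?_, by omega⟩
  obtain ⟨y, hy, z, hz, rfl⟩ := Submodule.mem_sup.1 (e6.ge (Submodule.mem_top (x := x)))
  have a1 : (g - 1) *ᵥ y = 0 := hy
  have a2 : (g - χ • 1) *ᵥ z = 0 := hz
  have a3 : (g - 1) * (g - χ • 1) = (g - χ • 1) * (g - 1) := by
    simp only [Matrix.sub_mul, Matrix.mul_sub, Matrix.mul_smul, Matrix.smul_mul, Matrix.one_mul,
      Matrix.mul_one, smul_sub]
    abel
  rw [zero_mulVec, mulVec_add, ← mulVec_mulVec z, a2, a3, ← mulVec_mulVec y, a1, mulVec_zero,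
    mulVec_zero, add_zero]

/-- `e = (χ - 1)⁻¹ (g - 1)`; the range `U` of `e` has dimension eight and `U + σ U` lies in `C`. -/
theorem exists_idem (C : AddSubgroup (WW p))
    (hC : ∀ j, Nat.card {y : WW p // p ^ j • y = 0 ∧ y ∈ C} ≤ p ^ (8 * j))
    {g σ : Matrix ν ν ℤ_[p]} {χ : ℤ_[p]} (h0 : χ ≠ 0) (h1 : IsUnit (χ - 1))
    (hg : ∀ x y, EB (mQ g *ᵥ x) (mQ g *ᵥ y) = (χ : ℚ_[p]) * EB x y)
    (hgC : ∀ v : ν → ℚ_[p], ((mQ g *ᵥ v - v : ν → ℚ_[p]) : WW p) ∈ C)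
    (hσ : ∀ y ∈ C, matW σ y ∈ C) :
    ∃ e : Matrix ν ν ℤ_[p], g - 1 = (χ - 1) • e ∧ e * e = e ∧ e ≠ 0 ∧ e ≠ 1 ∧
      (1 - e) * σ * e = 0 ∧ ∀ v : ν → ℚ_[p], ((mQ e *ᵥ v : ν → ℚ_[p]) : WW p) ∈ C := by
  obtain ⟨u, hu⟩ := h1
  have hχ : (χ : ℚ_[p]) - 1 ≠ 0 := by
    intro h
    have h2 : χ - 1 = 0 := Subtype.ext h
    exact u.ne_zero (hu.trans h2)
  have hU : ∀ v ∈ LinearMap.range (mQ g - 1).mulVecLin, (v : WW p) ∈ C := by
    rintro _ ⟨v, rfl⟩
    rw [mulVecLin_apply, sub_mulVec, one_mulVec]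
    exact hgC v
  obtain ⟨hq, hr⟩ := sim_quadratic (fun h => h0 (Subtype.ext h)) (sub_ne_zero.1 hχ) hg
    (finrank_le_eight C hC _ hU)
  obtain ⟨e, he⟩ : ∃ e : Matrix ν ν ℤ_[p], g - 1 = (χ - 1) • e :=
    ⟨((u⁻¹ : ℤ_[p]ˣ) : ℤ_[p]) • (g - 1), by rw [smul_smul, ← hu, Units.mul_inv, one_smul]⟩
  have hE : mQ g - 1 = ((χ : ℚ_[p]) - 1) • mQ e := by
    have h := congrArg mQ he
    rwa [faceA_sub, mQ_one, faceA_smul] at h
  have hE2 : mQ e * mQ e = mQ e := by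
    have h : mQ g - (χ : ℚ_[p]) • 1 = ((χ : ℚ_[p]) - 1) • (mQ e - 1) := by
      rw [smul_sub, ← hE, sub_smul, one_smul]
      abel
    rw [hE, h, Matrix.smul_mul, Matrix.mul_smul, smul_eq_zero, smul_eq_zero, Matrix.mul_sub,
      Matrix.mul_one] at hq
    exact sub_eq_zero.1 ((hq.resolve_left hχ).resolve_left hχ)
  have hm : ∀ v, mQ e *ᵥ v ∈ LinearMap.range (mQ g - 1).mulVecLin := fun v =>
    ⟨((χ : ℚ_[p]) - 1)⁻¹ • v, by
      rw [mulVecLin_apply, hE, smul_mulVec, mulVec_smul, smul_smul, mul_inv_cancel₀ hχ, one_smul]⟩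
  refine ⟨e, he, faceA_inj (by rw [mQ_mul, hE2]), ?_, ?_, faceA_inj ?_, fun v => hU _ (hm v)⟩
  · rintro rfl
    rw [hE, faceA_zero, smul_zero, rank_zero] at hr
    omega
  · rintro rfl
    have h : IsUnit (((χ : ℚ_[p]) - 1) • (1 : Matrix ν ν ℚ_[p])) :=
      IsUnit.of_mul_eq_one (((χ : ℚ_[p]) - 1)⁻¹ • (1 : Matrix ν ν ℚ_[p])) (by
        rw [Matrix.smul_mul, Matrix.mul_smul, smul_smul, mul_inv_cancel₀ hχ, one_smul,
          Matrix.one_mul])
    rw [hE, mQ_one, rank_of_isUnit _ h] at hr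
    simp at hr
  · have h4 := finrank_le_eight C hC (LinearMap.range (mQ g - 1).mulVecLin ⊔
        (LinearMap.range (mQ g - 1).mulVecLin).map (mQ σ).mulVecLin) fun v hv => by
      obtain ⟨y, hy, _, ⟨z, hz, rfl⟩, rfl⟩ := Submodule.mem_sup.1 hv
      rw [QuotientAddGroup.mk_add]
      exact C.add_mem (hU y hy) (hσ _ (hU z hz))
    have h5 := Submodule.eq_of_le_of_finrank_le le_sup_left (h4.trans hr.ge)
    rw [mQ_mul, mQ_mul, faceA_sub, mQ_one, faceA_zero]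
    refine Matrix.ext_iff_mulVec.2 fun x => ?_
    obtain ⟨w, hw⟩ := h5.ge (Submodule.mem_sup_right (Submodule.mem_map_of_mem (hm x)))
    rw [mulVecLin_apply, mulVecLin_apply] at hw
    rw [zero_mulVec, ← mulVec_mulVec, ← mulVec_mulVec, ← hw, mulVec_mulVec, hE, Matrix.mul_smul,
      Matrix.sub_mul, hE2, Matrix.one_mul, sub_self, smul_zero, zero_mulVec]

/-- `a s = e (a s) + (1 - e) a s`, and the second term is integral (`W_pow_eq_zero`). -/
theorem matW_mem (C : AddSubgroup (WW p)) {e a : Matrix ν ν ℤ_[p]}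
    (he : ∀ v : ν → ℚ_[p], ((mQ e *ᵥ v : ν → ℚ_[p]) : WW p) ∈ C) {j : ℕ}
    (ha : ∀ i i', (p : ℤ_[p]) ^ j ∣ ((1 - e) * a) i i') (y : WW p) (hy : p ^ j • y = 0) :
    matW a y ∈ C := by
  induction y using QuotientAddGroup.induction_on with
  | H s =>
    have hp : (p : ℚ_[p]) ^ j ≠ 0 :=
      pow_ne_zero _ (by exact_mod_cast (Fact.out : p.Prime).ne_zero)
    obtain ⟨v, hv⟩ := (W_pow_eq_zero p j s).1 hy
    choose b hb using ha
    have h1 : (1 - e) * a = (p : ℤ_[p]) ^ j • Matrix.of b := by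
      ext i i'
      rw [hb]
      rfl
    have h2 := congrArg mQ h1
    rw [mQ_mul, faceA_sub, mQ_one, faceA_smul, Matrix.sub_mul, Matrix.one_mul] at h2
    have h3 : ((mQ e *ᵥ (mQ a *ᵥ s) : ν → ℚ_[p]) : WW p) = (mQ a *ᵥ s : ν → ℚ_[p]) := by
      refine QuotientAddGroup.eq.2 ?_
      rw [mulVec_mulVec, neg_add_eq_sub, ← sub_mulVec, h2, hv, smul_mulVec, mulVec_smul, smul_smul]
      push_cast
      rw [mul_inv_cancel₀ hp, one_smul]
      exact fun i => mQ_mulVec_le _ (fun i => (v i).2) i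
    rw [matW_mk, ← h3]
    exact he _

end

end M8.B2
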