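import Pool.Agent.Lib.MP_33b3f9_ag.M8.B2.Ua
import Pool.Agent.Lib.MP_33b3f9_ag.M4.ThLio

/-!
Extension of theta functions from the rational points to the adelic space.
-/

set_option autoImplicit false

namespace M8.B2

open M4

open Matrix

noncomputable section

/-- A rational vector as a real vector. -/
def rQ (q : ν → ℚ) : ν → ℝ := fun i => (q i : ℝ)

/-- An integral vector as a rational vector. -/
def zQ (l : ν → ℤ) : ν → ℚ := fun i => (l i : ℚ)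

theorem rQ_add (q q' : ν → ℚ) : rQ (q + q') = rQ q + rQ q' := by funext i; simp [rQ]

theorem rQ_sub (q q' : ν → ℚ) : rQ (q - q') = rQ q - rQ q' := by funext i; simp [rQ]

theorem rQ_smul (c : ℚ) (q : ν → ℚ) : rQ (c • q) = (c : ℝ) • rQ q := by funext i; simp [rQ]

@[simp] theorem rQ_zero : rQ 0 = 0 := by funext i; simp [rQ]

theorem rQ_zQ (l : ν → ℤ) : rQ (zQ l) = rz l := by funext i; simp [rQ, zQ, rz]

theorem qV_add (q q' : ν → ℚ) : qV (q + q') = qV q + qV q' := by funext i; simp [qV, qA]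

theorem qV_sub (q q' : ν → ℚ) : qV (q - q') = qV q - qV q' := by funext i; simp [qV, qA]

theorem qV_smul (c : ℚ) (q : ν → ℚ) : qV (c • q) = c • qV q := by
  funext i
  simp only [qV, qA, Pi.smul_apply, smul_eq_mul, map_mul, Algebra.smul_def]

@[simp] theorem qV_zero : qV 0 = 0 := by funext i; simp [qV, qA]

theorem qV_mem_TA {q : ν → ℚ} : qV q ∈ TA ↔ ∃ l : ν → ℤ, q = zQ l := by
  rw [mem_TA]
  constructor
  · intro h
    choose l hl using fun i => qA_mem_Zh.1 (h i)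
    exact ⟨l, funext hl⟩
  · rintro ⟨l, rfl⟩ i
    exact qA_mem_Zh.2 ⟨l i, rfl⟩

theorem qV_zQ_mem (l : ν → ℤ) : qV (zQ l) ∈ TA := qV_mem_TA.2 ⟨l, rfl⟩

theorem exists_split (x : VA) : ∃ (q : ν → ℚ) (t : VA), t ∈ TA ∧ x = qV q + t :=
  ⟨ratV x, x - qV (ratV x), ratV_spec x, by abel⟩

theorem EB_qV (q q' : ν → ℚ) : EB (qV q) (qV q') = qA (EB q q') :=
  (map_EB (algebraMap ℚ Af) q q').symm

theorem E_rQ (q q' : ν → ℚ) : E (rQ q) (rQ q') = ((EB q q' : ℚ) : ℝ) := by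
  simp [E, EB, rQ]

theorem psi_qV (n : ℕ) (q q' : ν → ℚ) : psi ((2 * n : ℕ) * EB (qV q) (qV q')) =
    ee (((4 * n : ℕ) : ℝ) * E (rQ q) (rQ q') / 2) := by
  have h : ((2 * n : ℕ) : Af) * EB (qV q) (qV q') = qA ((2 * n : ℕ) * EB q q') := by
    rw [EB_qV, qA, qA, map_mul, map_natCast]
  rw [h, psi_qA, E_rQ]
  congr 1
  push_cast
  ring

/-- Invariance under the lattice at level `4 n`. -/
def Per (n : ℕ) (f : (ν → ℝ) → ℂ) : Prop := ∀ l : ν → ℤ, U ((4 * n : ℕ) : ℝ) (rz l) f = f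

theorem Per.of_mem {τ : Matrix (Fin 8) (Fin 8) ℂ} {n : ℕ} {f : (ν → ℝ) → ℂ}
    (hf : f ∈ Gam τ (4 * n) 0) : Per n f := fun l => by
  have h := (mem_Gam.1 hf).2 l
  have h1 : chi l ^ (4 * n) = 1 := by
    rw [show 4 * n = 2 * (2 * n) by ring, pow_mul, chi_sq, one_pow]
  have h2 : ee (E (0 : ν → ℝ) (rz l)) = 1 := by simp [E, ee]
  rwa [h1, h2, one_mul, one_smul] at h

theorem mem_Gam_of_per {τ : Matrix (Fin 8) (Fin 8) ℂ} {n : ℕ} {f : (ν → ℝ) → ℂ}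
    (h1 : f ∈ Hol τ ((4 * n : ℕ) : ℝ)) (h2 : Per n f) : f ∈ Gam τ (4 * n) 0 := by
  refine mem_Gam.2 ⟨h1, fun l => ?_⟩
  have h3 : chi l ^ (4 * n) = 1 := by
    rw [show 4 * n = 2 * (2 * n) by ring, pow_mul, chi_sq, one_pow]
  have h4 : ee (E (0 : ν → ℝ) (rz l)) = 1 := by simp [E, ee]
  rw [h3, h4, one_mul, one_smul]
  exact h2 l

/-- The extension of a function of level `4 n` to the adelic space. -/
def ext (n : ℕ) (f : (ν → ℝ) → ℂ) : VA → ℂ := fun x =>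
  psi (-((2 * n : ℕ) * EB (x - qV (ratV x)) (qV (ratV x)))) * f (rQ (ratV x))

/-- The extension as a linear map. -/
def extL (n : ℕ) : ((ν → ℝ) → ℂ) →ₗ[ℂ] (VA → ℂ) where
  toFun := ext n
  map_add' f g := by funext x; simp [ext, mul_add]
  map_smul' c f := by funext x; simp [ext, mul_left_comm]

theorem extL_apply (n : ℕ) (f : (ν → ℝ) → ℂ) : extL n f = ext n f := rfl

theorem ext_smul (n : ℕ) (c : ℂ) (f : (ν → ℝ) → ℂ) : ext n (c • f) = c • ext n f :=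
  (extL n).map_smul c f

theorem ext_mul (n m : ℕ) (f g : (ν → ℝ) → ℂ) : ext (n + m) (f * g) = ext n f * ext m g := by
  funext x
  simp only [ext, Pi.mul_apply]
  have : ∀ a : Af, -(((2 * (n + m) : ℕ) : Af) * a) = -((2 * n : ℕ) * a) + -((2 * m : ℕ) * a) := by
    intro a; push_cast; ring
  rw [this, psi_add]; ring

theorem ext_one : ext 0 1 = 1 := by funext x; simp [ext]

theorem Per.add_int {n : ℕ} {f : (ν → ℝ) → ℂ} (hf : Per n f) (q : ν → ℚ) (l : ν → ℤ) :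
    psi ((2 * n : ℕ) * EB (qV (zQ l)) (qV q)) * f (rQ (q + zQ l)) = f (rQ q) := by
  have h := congrFun (hf l) (rQ q)
  rw [U_apply] at h
  rw [psi_qV, rQ_add, rQ_zQ, ← h]

theorem ext_eq {n : ℕ} {f : (ν → ℝ) → ℂ} (hf : Per n f) (q : ν → ℚ) {t : VA} (ht : t ∈ TA) :
    ext n f (qV q + t) = psi (-((2 * n : ℕ) * EB t (qV q))) * f (rQ q) := by
  have h1 : qV (ratV (qV q + t) - q) ∈ TA := by
    have := TA.sub_mem ht (ratV_spec (qV q + t))
    rw [qV_sub]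
    rwa [show t - (qV q + t - qV (ratV (qV q + t))) = qV (ratV (qV q + t)) - qV q by abel] at this
  obtain ⟨l, hl⟩ := qV_mem_TA.1 h1
  have h2 : ratV (qV q + t) = q + zQ l := by rw [← hl]; abel
  rw [ext, h2, ← hf.add_int q l, ← mul_assoc, ← psi_add]
  congr 1
  refine psi_congr ?_
  have h3 : qV q + t - qV (q + zQ l) = t - qV (zQ l) := by rw [qV_add]; abel
  rw [h3, qV_add, EB_sub_left, EB_add_right, EB_add_right, EB_self]
  have h4 := Zh.neg_mem (Zh.mul_mem (natCast_mem Zh (2 * n)) (EB_mem ht (qV_zQ_mem l)))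
  convert h4 using 1
  ring

theorem ext_qV {n : ℕ} {f : (ν → ℝ) → ℂ} (hf : Per n f) (q : ν → ℚ) :
    ext n f (qV q) = f (rQ q) := by
  have h := ext_eq hf q TA.zero_mem
  simpa using h

theorem UA_ext_TA {n : ℕ} {f : (ν → ℝ) → ℂ} (hf : Per n f) {l : VA} (hl : l ∈ TA) :
    UA n l (ext n f) = ext n f := by
  funext x
  obtain ⟨q, t, ht, rfl⟩ := exists_split x
  rw [UA_apply, add_assoc, ext_eq hf q (TA.add_mem ht hl), ext_eq hf q ht, ← mul_assoc, ← psi_add]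
  congr 1
  refine psi_congr ?_
  rw [EB_add_right, EB_add_left]
  have h4 := Zh.mul_mem (natCast_mem Zh (2 * n)) (EB_mem hl ht)
  convert h4 using 1
  ring

theorem psi_EB_of {n : ℕ} {y t : VA} (hy : (4 * n) • y ∈ TA) (ht : t ∈ TA) :
    ((4 * n : ℕ) : Af) * EB y t ∈ Zh := by
  have h := EB_mem hy ht
  rwa [← Nat.cast_smul_eq_nsmul Af, EB_smul_left] at h

theorem Per.U {n : ℕ} {f : (ν → ℝ) → ℂ} (hf : Per n f) {q : ν → ℚ} (hq : (4 * n) • qV q ∈ TA) :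
    Per n (U ((4 * n : ℕ) : ℝ) (rQ q) f) := fun l => by
  rw [U_comm, hf l]
  have h := psi_eq_one.2 (psi_EB_of hq (qV_zQ_mem l))
  have h2 := psi_qV (2 * n) q (zQ l)
  rw [show 2 * (2 * n) = 4 * n by ring, h, rQ_zQ] at h2
  have h3 : ee (((4 * n : ℕ) : ℝ) * E (rQ q) (rz l)) = 1 := by
    rw [h2]
    congr 1
    push_cast
    ring
  rw [h3, one_smul]

theorem UA_ext_qV {n : ℕ} {f : (ν → ℝ) → ℂ} (hf : Per n f) {q : ν → ℚ}
    (hq : (4 * n) • qV q ∈ TA) :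
    UA n (qV q) (ext n f) = ext n (U ((4 * n : ℕ) : ℝ) (rQ q) f) := by
  funext x
  obtain ⟨q', t, ht, rfl⟩ := exists_split x
  rw [UA_apply, show qV q' + t + qV q = qV (q' + q) + t by rw [qV_add]; abel, ext_eq hf _ ht,
    ext_eq (hf.U hq) q' ht, U_apply, ← psi_qV, rQ_add, ← mul_assoc, ← mul_assoc, ← psi_add,
    ← psi_add]
  congr 1
  refine psi_congr ?_
  rw [qV_add, EB_add_right, EB_add_right, EB_swap (qV q) t]
  have h4 := psi_EB_of hq ht
  convert h4 using 1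
  push_cast
  ring

theorem UA_ext {n : ℕ} {f : (ν → ℝ) → ℂ} (hf : Per n f) {q : ν → ℚ} {t : VA} (ht : t ∈ TA)
    (hq : (4 * n) • qV q ∈ TA) : UA n (qV q + t) (ext n f) =
      psi (-((2 * n : ℕ) * EB t (qV q))) • ext n (U ((4 * n : ℕ) : ℝ) (rQ q) f) := by
  have h := UA_UA n (qV q) t (ext n f)
  rw [UA_ext_TA hf ht, UA_ext_qV hf hq] at h
  rw [h, smul_smul, ← psi_add, neg_add_cancel, psi_zero, one_smul]

theorem Per.scale {n : ℕ} {f : (ν → ℝ) → ℂ} (hf : Per n f) (c : ℤ) :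
    Per (n * c.natAbs ^ 2) fun x => f ((c : ℝ) • x) := fun l => by
  have h1 : ((4 * (n * c.natAbs ^ 2) : ℕ) : ℝ) = ((4 * n : ℕ) : ℝ) * (c : ℝ) ^ 2 := by
    push_cast
    rw [Nat.cast_natAbs, Int.cast_abs, sq_abs, mul_assoc]
  rw [h1, U_scale, ← rz_smul, hf]

theorem zsmul_VA (c : ℤ) (x : VA) : c • x = (c : Af) • x := (Int.cast_smul_eq_zsmul Af c x).symm

theorem nsmul_VA (c : ℕ) (x : VA) : c • x = (c : Af) • x := (Nat.cast_smul_eq_nsmul Af c x).symm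

theorem qsmul_VA (c : ℚ) (x : VA) : c • x = qA c • x := (algebraMap_smul Af c x).symm

theorem ext_scale {n : ℕ} {f : (ν → ℝ) → ℂ} (hf : Per n f) (c : ℤ) (z : VA) :
    ext (n * c.natAbs ^ 2) (fun x => f ((c : ℝ) • x)) z = ext n f (c • z) := by
  obtain ⟨q, t, ht, rfl⟩ := exists_split z
  have h1 : (c : Af) • qV q = qV ((c : ℚ) • q) := by
    rw [qV_smul, qsmul_VA, qA, map_intCast]
  have h3 : (c : Af) • t ∈ TA := zsmul_VA c t ▸ TA.zsmul_mem ht c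
  rw [ext_eq (hf.scale c) q ht, zsmul_VA, smul_add, h1, ext_eq hf _ h3, ← h1, rQ_smul,
    EB_smul_left, EB_smul_right]
  have h2 : ((c.natAbs : ℕ) : Af) ^ 2 = (c : Af) ^ 2 := by
    have : ((c.natAbs : ℤ)) ^ 2 = c ^ 2 := by rw [Int.natAbs_sq]
    exact_mod_cast congrArg (Int.cast : ℤ → Af) this
  congr 2
  push_cast
  rw [h2]
  ring

theorem eq_of_rQ {f g : (ν → ℝ) → ℂ} (hf : Continuous f) (hg : Continuous g)
    (h : ∀ q, f (rQ q) = g (rQ q)) : f = g := by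
  refine hf.ext_on dense_dyadic hg ?_
  rintro x ⟨k, l, rfl⟩
  have := h (((2 : ℚ) ^ k)⁻¹ • zQ l)
  rw [rQ_smul, rQ_zQ] at this
  push_cast at this
  exact this

theorem eq_of_ext {n : ℕ} {f g : (ν → ℝ) → ℂ} (hf : Continuous f) (hg : Continuous g)
    (hf' : Per n f) (hg' : Per n g) (h : ext n f = ext n g) : f = g :=
  eq_of_rQ hf hg fun q => by rw [← ext_qV hf', h, ext_qV hg']

end

end M8.B2
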