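import Pool.Agent.Lib.MP_33b3f9_ag.M8.B2.Ext
import Pool.Agent.Lib.MP_33b3f9_ag.M8.B2.Ext2

/-!
Theta data in characteristic zero from theta functions, and the setup at a good place.
-/

set_option autoImplicit false

namespace M8.B2

open M4

open Matrix Pool.Agent.M4.Det

noncomputable section

variable {τ : Mat} {K : IntermediateField ℚ ℂ}

/-- The adelic sections of level `4 n`. -/
def GA (τ : Mat) (n : ℕ) : Submodule ℂ (VA → ℂ) := (Gam τ (4 * n) 0).map (extL n)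

theorem mem_GA {n : ℕ} {F : VA → ℂ} : F ∈ GA τ n ↔ ∃ f ∈ Gam τ (4 * n) 0, ext n f = F := Iff.rfl

theorem ext_mem {n : ℕ} {f : (ν → ℝ) → ℂ} (hf : f ∈ Gam τ (4 * n) 0) : ext n f ∈ GA τ n :=
  ⟨f, hf, rfl⟩

/-- The adelic coordinates. -/
def XA (τ : Mat) (i0 i : Bits) : VA → ℂ := ext 1 (YY τ i0 (bz i))

theorem YY_mem (hτ : InH τ) (i0 : Bits) (k : ν → ℤ) : YY τ i0 k ∈ Gam τ (4 * 1) 0 :=
  Submodule.smul_mem _ _ (XX_mem hτ k)

theorem XA_eq (hτ : InH τ) (i0 i : Bits) (q : ν → ℚ) {t : VA} (ht : t ∈ TA) :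
    XA τ i0 i (qV q + t) = psi (-(2 * EB t (qV q))) * YY τ i0 (bz i) (rQ q) := by
  have h := ext_eq (Per.of_mem (YY_mem hτ i0 (bz i))) q ht
  rwa [mul_one, Nat.cast_ofNat] at h

theorem exists_div {n : ℕ} (hn : n ≠ 0) {q : ν → ℚ} (hq : n • qV q ∈ TA) :
    ∃ l : ν → ℤ, rQ q = (n : ℝ)⁻¹ • rz l := by
  have h1 : n • qV q = qV ((n : ℚ) • q) := by rw [qV_smul, qsmul_VA, nsmul_VA, qA, map_natCast]
  rw [h1] at hq
  obtain ⟨l, hl⟩ := qV_mem_TA.1 hq
  have h2 : (n : ℝ) ≠ 0 := by exact_mod_cast hn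
  refine ⟨l, ?_⟩
  rw [← rQ_zQ, ← hl, rQ_smul, smul_smul, Rat.cast_natCast, inv_mul_cancel₀ h2, one_smul]

theorem split_mem {n : ℕ} {q : ν → ℚ} {t : VA} (ht : t ∈ TA) (h : n • (qV q + t) ∈ TA) :
    n • qV q ∈ TA := by
  have := TA.sub_mem h (TA.nsmul_mem ht n)
  rwa [nsmul_add, add_sub_cancel_right] at this

theorem GA_tr (hτ : InH τ) (n : ℕ) (y : VA) (hy : (4 * n) • y ∈ TA) (F : VA → ℂ)
    (hF : F ∈ GA τ n) : UA n y F ∈ GA τ n := by
  obtain ⟨f, hf, rfl⟩ := mem_GA.1 hF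
  obtain ⟨q, t, ht, rfl⟩ := exists_split y
  have hq := split_mem ht hy
  rw [UA_ext (Per.of_mem hf) ht hq]
  refine Submodule.smul_mem _ _ (ext_mem ?_)
  have h1 := Gam.U hτ.1 hf (rQ q)
  rcases Nat.eq_zero_or_pos n with rfl | hn
  · simpa using h1
  · obtain ⟨l, hl⟩ := exists_div (n := 4 * n) (by omega) hq
    rw [hl]
    exact Gam.U_div hτ.1 hf l

theorem GA_desc (hτ : InH τ) (n c : ℕ) (hc : 0 < c) (F : VA → ℂ) (hF : F ∈ GA τ (n * c ^ 2))
    (h : ∀ t : VA, c • t ∈ TA → UA (n * c ^ 2) t F = F) :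
    ∃ G ∈ GA τ n, ∀ z, F z = G (c • z) := by
  obtain ⟨f, hf, rfl⟩ := mem_GA.1 hF
  have hc0 : (c : ℝ) ≠ 0 := by exact_mod_cast hc.ne'
  have hc1 : (c : ℚ) ≠ 0 := by exact_mod_cast hc.ne'
  have e1 : ((4 * (n * c ^ 2) : ℕ) : ℝ) * ((c : ℝ)⁻¹) ^ 2 = ((4 * n : ℕ) : ℝ) := by
    push_cast; field_simp
  have hg1 := Hol.scale (mem_Gam.1 hf).1 (c : ℝ)⁻¹
  rw [e1] at hg1
  have hg2 : Per n fun x => f ((c : ℝ)⁻¹ • x) := fun l => by
    have h1 : c • qV ((c : ℚ)⁻¹ • zQ l) ∈ TA := by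
      rw [nsmul_VA, qV_smul, qsmul_VA, smul_smul, ← map_natCast (algebraMap ℚ Af), qA, ← map_mul,
        mul_inv_cancel₀ hc1, map_one, one_smul]
      exact qV_zQ_mem l
    have h2 : (4 * (n * c ^ 2)) • qV ((c : ℚ)⁻¹ • zQ l) ∈ TA := by
      rw [show 4 * (n * c ^ 2) = c * (4 * n * c) by ring, mul_nsmul]
      exact TA.nsmul_mem h1 _
    have h3 := h _ h1
    rw [UA_ext_qV (Per.of_mem hf) h2] at h3
    have h4 := eq_of_ext (Hol.continuous (Hol.U hτ.1 (mem_Gam.1 hf).1 _))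
      (Hol.continuous (mem_Gam.1 hf).1) ((Per.of_mem hf).U h2) (Per.of_mem hf) h3
    rw [rQ_smul, rQ_zQ, Rat.cast_inv, Rat.cast_natCast] at h4
    rw [← e1, U_scale, h4]
  refine ⟨_, ext_mem (mem_Gam_of_per hg1 hg2), fun z => ?_⟩
  have h5 := ext_scale hg2 (c : ℤ) z
  simp only [Int.natAbs_natCast, Int.cast_natCast, smul_smul, inv_mul_cancel₀ hc0, one_smul,
    natCast_zsmul] at h5
  exact h5

theorem XA_heis (hτ : InH τ) (i0 : Bits) (y : VA) (hy : 4 • y ∈ TA) (i : Bits) :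
    ∃ (j : Bits) (c : ℂ), c ^ 8 = 1 ∧ UA 1 y (XA τ i0 i) = c • XA τ i0 j := by
  obtain ⟨q, t, ht, rfl⟩ := exists_split y
  have hq := split_mem ht hy
  obtain ⟨l, hl⟩ := exists_div (n := 4) (by norm_num) hq
  obtain ⟨c, hc, h1⟩ := U_XX τ (bz i) l
  obtain ⟨j, d, hd, h2⟩ := XX_red τ (l + bz i)
  refine ⟨j, psi (-((2 * 1 : ℕ) * EB t (qV q))) * (c * d), ?_, ?_⟩
  · rw [mul_pow, (hc.mul hd).pow, mul_one, ← psi_nsmul, psi_eq_one]
    have h3 := psi_EB_of (n := 1) hq ht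
    rw [EB_swap (qV q) t]
    have h4 := Zh.mul_mem (natCast_mem Zh 4) h3
    convert h4 using 1
    push_cast
    ring
  · rw [XA, UA_ext (Per.of_mem (YY_mem hτ i0 (bz i))) ht hq, XA, YY, YY, U_smul, hl, mul_smul,
      ← ext_smul 1 (c * d)]
    congr 2
    rw [mul_one, Nat.cast_ofNat, h1, h2, smul_smul c, smul_comm]

theorem exists_TD0 (hτ : InH τ) (hK : DefX τ K) : ∃ D : TD0 Bits, th2 τ D.i0 ≠ 0 ∧ D.Γ = GA τ ∧
    D.X = XA τ D.i0 ∧ (∀ a b i j l m, D.cl a b i j l m ∈ K) ∧ ∀ a b, D.cd a b ∈ K := by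
  obtain ⟨i0, h0⟩ := XX_bpf hτ 0
  rw [XX_zero] at h0
  replace h0 : th2 τ i0 ≠ 0 := h0
  choose cl hcl hlaw using law_K hτ hK h0
  choose cd hcd hdup using dup_K hτ hK h0
  refine ⟨{
    Γ := GA τ
    X := XA τ i0
    i0 := i0
    cl := cl
    cd := cd
    X_zero := ?_
    X_mem := fun i => ext_mem (YY_mem hτ i0 _)
    heis := XA_heis hτ i0
    one_mem := ⟨1, Gam.one, ext_one⟩
    mul_mem := ?_
    fin := fun n hn => ?_
    dim_le := fun n hn => ?_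
    tr := GA_tr hτ
    per := ?_
    mul := ?_
    desc := GA_desc hτ
    bpf := fun z => ?_
    law := fun a b z z' => ?_
    dup := fun a z => ?_ }, h0, rfl, rfl, hcl, hcd⟩
  · have h := XA_eq hτ i0 i0 0 TA.zero_mem
    simp only [qV_zero, add_zero, EB_self, mul_zero, neg_zero, psi_zero, one_mul, rQ_zero] at h
    rw [h, YY, Pi.smul_apply, XX_zero, smul_eq_mul]
    exact inv_mul_cancel₀ h0
  · rintro n m _ _ ⟨f, hf, rfl⟩ ⟨g, hg, rfl⟩
    have h := Gam.mul hf hg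
    rw [add_zero, ← mul_add] at h
    exact ⟨f * g, h, ext_mul n m f g⟩
  · have := finite_Gam hτ (m := 4 * n) (by omega) 0
    exact Module.Finite.map _ _
  · have := finite_Gam hτ (m := 4 * n) (by omega) 0
    refine (Submodule.finrank_map_le _ _).trans ?_
    rw [finrank_Gam hτ (by omega), Fintype.card_fin]
  · rintro n l hl _ ⟨f, hf, rfl⟩
    exact UA_ext_TA (Per.of_mem hf) hl
  · rintro n c _ ⟨f, hf, rfl⟩
    have h := Gam.scale hf c
    rw [smul_zero, mul_assoc] at h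
    exact ⟨_, h, funext (ext_scale (Per.of_mem hf) c)⟩
  · obtain ⟨q, t, ht, rfl⟩ := exists_split z
    obtain ⟨i, hi⟩ := XX_bpf hτ (rQ q)
    refine ⟨i, ?_⟩
    rw [XA_eq hτ i0 i q ht]
    exact mul_ne_zero (psi_ne _) (mul_ne_zero (inv_ne_zero h0) hi)
  · obtain ⟨q, t, ht, rfl⟩ := exists_split z
    obtain ⟨q', t', ht', rfl⟩ := exists_split z'
    have e1 : qV q + t + (qV q' + t') = qV (q + q') + (t + t') := by rw [qV_add]; abel
    have e2 : qV q + t - (qV q' + t') = qV (q - q') + (t - t') := by rw [qV_sub]; abel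
    have e3 : psi (-(2 * EB (t + t') (qV (q + q')))) * psi (-(2 * EB (t - t') (qV (q - q')))) =
        psi (-(2 * EB t (qV q))) ^ 2 * psi (-(2 * EB t' (qV q'))) ^ 2 := by
      rw [← psi_nsmul, ← psi_nsmul, ← psi_add, ← psi_add, qV_add, qV_sub]
      simp only [EB_add_left, EB_add_right, EB_sub_left, EB_sub_right]
      congr 1
      push_cast
      ring
    rw [e1, e2, XA_eq hτ i0 a _ (TA.add_mem ht ht'), XA_eq hτ i0 b _ (TA.sub_mem ht ht'),
      mul_mul_mul_comm, e3, rQ_add, rQ_sub, hlaw]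
    simp only [XA_eq hτ i0 _ _ ht, XA_eq hτ i0 _ _ ht', Finset.mul_sum]
    refine Finset.sum_congr rfl fun i _ => Finset.sum_congr rfl fun j _ =>
      Finset.sum_congr rfl fun l _ => Finset.sum_congr rfl fun m _ => by ring
  · obtain ⟨q, t, ht, rfl⟩ := exists_split z
    have e1 : qV q + t + (qV q + t) = qV (q + q) + (t + t) := by rw [qV_add]; abel
    have e3 : psi (-(2 * EB t (qV q))) ^ 4 = psi (-(2 * EB (t + t) (qV (q + q)))) := by
      rw [← psi_nsmul, qV_add]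
      simp only [EB_add_left, EB_add_right]
      congr 1
      push_cast
      ring
    rw [e1, XA_eq hτ i0 a _ ht, mul_pow, e3, hdup]
    simp only [XA_eq hτ i0 _ _ (TA.add_mem ht ht), Finset.mul_sum, rQ_add]
    exact Finset.sum_congr rfl fun i _ => by ring

/-- An algebraic number is integral at all places above large primes. -/
theorem exists_bound [FiniteDimensional ℚ K] {x : ℂ} (hx : x ∈ K) : ∃ p₀ : ℕ,
    ∀ (p : ℕ) [Fact p.Prime], p₀ ≤ p → ∀ e : ℂ ≃+* PadicAlgCl p, ‖e x‖ ≤ 1 := by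
  have h1 : IsAlgebraic ℚ x := (IntermediateField.isAlgebraic_iff (x := ⟨x, hx⟩)).1
    (Algebra.IsAlgebraic.isAlgebraic _)
  have h2 : IsAlgebraic ℤ x := (IsFractionRing.isAlgebraic_iff ℤ ℚ ℂ).2 h1
  obtain ⟨N, hN, h3⟩ := h2.exists_integral_multiple
  refine ⟨N.natAbs + 1, fun p _ hp e => ?_⟩
  have h4 : IsIntegral ℤ (e (N • x)) := h3.map (e.toRingHom.toIntAlgHom)
  have h5 : ‖e (N • x)‖ ≤ 1 := by
    have h6 : IsIntegral (OO p) (e (N • x)) := h4.tower_top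
    obtain ⟨y, hy⟩ := IsIntegrallyClosed.isIntegral_iff.1 h6
    rw [← hy]
    exact y.2
  have h7 : ‖(N : PadicAlgCl p)‖ = 1 := by
    rw [← map_intCast (algebraMap ℚ_[p] (PadicAlgCl p)), PadicAlgCl.norm_extends]
    refine le_antisymm (Padic.norm_int_le_one N) (not_lt.1 fun h => ?_)
    have h8 := Int.natAbs_le_of_dvd_ne_zero (Padic.norm_intCast_lt_one_iff.1 h) hN
    rw [Int.natAbs_natCast] at h8
    omega
  rwa [zsmul_eq_mul, map_mul, map_intCast, norm_mul, h7, one_mul] at h5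

theorem exists_bound_fin [FiniteDimensional ℚ K] {α : Type} [Fintype α] {x : α → ℂ}
    (hx : ∀ a, x a ∈ K) : ∃ p₀ : ℕ,
    ∀ (p : ℕ) [Fact p.Prime], p₀ ≤ p → ∀ (e : ℂ ≃+* PadicAlgCl p) a, ‖e (x a)‖ ≤ 1 := by
  choose b hb using fun a => exists_bound (hx a)
  exact ⟨Finset.univ.sup b, fun p _ hp e a =>
    hb a p ((Finset.le_sup (Finset.mem_univ a)).trans hp) e⟩

/-- The Galois action on the adelic coordinates, up to a scalar. -/
theorem XA_compat {r : Rep K} (h : AV τ K r) (i0 : Bits) (σ : ℂ ≃ₐ[K] ℂ) (x : VA) :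
    ∃ c : ℂ, ∀ i, σ (XA τ i0 i x) = c * XA τ i0 i (rho (fun l => r l σ) x) := by
  obtain ⟨q, t, ht, rfl⟩ := exists_split x
  obtain ⟨q', t', ht', h1⟩ := exists_split (rho (fun l : Nat.Primes => r l σ) (qV q + t))
  have h2 : rho (fun l : Nat.Primes => r l σ) (qV q) - qV q' ∈ TA := by
    have h3 := TA.sub_mem ht' ((rho_mem_TA fun l : Nat.Primes => r l σ).2 ht)
    rw [map_add] at h1
    rwa [show t' - rho (fun l : Nat.Primes => r l σ) t =
      rho (fun l : Nat.Primes => r l σ) (qV q) - qV q' by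
        rw [sub_eq_sub_iff_add_eq_add, h1, add_comm]] at h3
  obtain ⟨c, hc⟩ := h.tate σ q q' fun l hl i => by
    have h4 := mem_TA_iff.1 h2 ⟨l, hl.out⟩ i
    rw [cV_sub, cV_rho, cV_qV, cV_qV] at h4
    exact h4
  by_cases h0 : th2 τ i0 = 0
  · exact ⟨0, fun i => by simp [XA, ext, YY, h0]⟩
  refine ⟨σ (psi (-(2 * EB t (qV q))) * (th2 τ i0)⁻¹) * c * th2 τ i0 /
    psi (-(2 * EB t' (qV q'))), fun i => ?_⟩
  have h5 := hc i
  change σ (XX τ (bz i) (rQ q)) = c * XX τ (bz i) (rQ q') at h5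
  have h6 := psi_ne (-(2 * EB t' (qV q')))
  rw [h1, XA_eq h.inH i0 i q ht, XA_eq h.inH i0 i q' ht', YY, Pi.smul_apply, Pi.smul_apply,
    smul_eq_mul, smul_eq_mul, ← mul_assoc, map_mul σ _ (XX τ (bz i) (rQ q)), h5]
  field_simp

/-- The setup at all places of degree one above large primes. -/
theorem exists_setup {r : Rep K} (h : AV τ K r) : ∃ (p₀ : ℕ) (i0 : Bits), th2 τ i0 ≠ 0 ∧
    ∀ P : Nat.Primes, p₀ ≤ P.1 → ∀ (e : ℂ ≃+* PadicAlgCl P) (he : IsPlace K e),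
      ∃ S : Setup P Bits, S.e = e ∧ S.D.Γ = GA τ ∧ S.D.X = XA τ i0 ∧
        ∀ t l, S.R t l = r l (dec he t) := by
  obtain ⟨D, h0, h1, h2, h3, h4⟩ := exists_TD0 h.inH h.defX
  have := h.fin
  obtain ⟨p₁, hp₁⟩ := exists_bound_fin (K := K) (α := Bits × Bits × Bits × Bits × Bits × Bits)
    (x := fun a => D.cl a.1 a.2.1 a.2.2.1 a.2.2.2.1 a.2.2.2.2.1 a.2.2.2.2.2)
    fun a => h3 _ _ _ _ _ _
  obtain ⟨p₂, hp₂⟩ := exists_bound_fin (K := K) (α := Bits × Bits) (x := fun a => D.cd a.1 a.2)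
    fun a => h4 _ _
  refine ⟨max 3 (max p₁ p₂), D.i0, h0, fun P hP e he => ⟨{
    D := D
    e := e
    odd := by omega
    good_cl := fun a b i j l m => hp₁ P (by omega) e (a, b, i, j, l, m)
    good_cd := fun a b => hp₂ P (by omega) e (a, b)
    R := fun t l => r l (dec he t)
    fix := fun t a b i j l m => (dec he t).commutes ⟨_, h3 a b i j l m⟩
    compat := fun t x => ?_ }, rfl, h1, h2, fun _ _ => rfl⟩⟩
  rw [h2]
  exact XA_compat h D.i0 (dec he t) x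

end

end M8.B2
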