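import Pool.Agent.Lib.MP_33b3f9_ag.M8.B2.Defs

/-!
An idempotent that comes from a pure tensor with two eigenvalues is a face of the cube.
-/

set_option autoImplicit false

namespace M8.B2

open M4

open Matrix Polynomial

noncomputable section

variable {Ω : Type}

theorem faceB_three :
    ∀ i : Fin 3, ∃ j k : Fin 3, i ≠ j ∧ i ≠ k ∧ j ≠ k ∧ ∀ s, s = i ∨ s = j ∨ s = k := by
  decide

section Slot

variable {R : Type} [CommRing R]

theorem faceB_tp_update (g : Fin 3 → Matrix (Fin 2) (Fin 2) R) (i : Fin 3)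
    (A : Matrix (Fin 2) (Fin 2) R) (a b : Fin 3 → Fin 2) :
    tp (Function.update g i A) a b =
      A (a i) (b i) * ∏ s ∈ Finset.univ.erase i, g s (a s) (b s) := by
  rw [tp, of_apply, ← Finset.mul_prod_erase _ _ (Finset.mem_univ i), Function.update_self]
  congr 1
  exact Finset.prod_congr rfl fun s hs => by rw [Function.update_of_ne (Finset.ne_of_mem_erase hs)]

theorem faceB_tv_update (v : Fin 3 → Fin 2 → R) (i : Fin 3) (x : Fin 2 → R) (a : Fin 3 → Fin 2) :
    tv (Function.update v i x) a = x (a i) * ∏ s ∈ Finset.univ.erase i, v s (a s) := by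
  rw [tv, ← Finset.mul_prod_erase _ _ (Finset.mem_univ i), Function.update_self]
  congr 1
  exact Finset.prod_congr rfl fun s hs => by rw [Function.update_of_ne (Finset.ne_of_mem_erase hs)]

/-- The tensor product is linear in one slot. -/
def faceB_up (g : Fin 3 → Matrix (Fin 2) (Fin 2) R) (i : Fin 3) :
    Matrix (Fin 2) (Fin 2) R →ₗ[R] Matrix (Fin 3 → Fin 2) (Fin 3 → Fin 2) R where
  toFun A := tp (Function.update g i A)
  map_add' A B := by
    ext a b
    simp only [faceB_tp_update, Matrix.add_apply, add_mul]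
  map_smul' c A := by
    ext a b
    simp only [faceB_tp_update, Matrix.smul_apply, smul_eq_mul, mul_assoc, RingHom.id_apply]

theorem faceB_mul_left (i : Fin 3) (A : Matrix (Fin 2) (Fin 2) R)
    (g : Fin 3 → Matrix (Fin 2) (Fin 2) R) :
    tp (Function.update 1 i A) * tp g = tp (Function.update g i (A * g i)) := by
  rw [tp_mul]
  congr 1
  funext s
  by_cases hs : s = i
  · subst hs
    simp
  · simp [Function.update_of_ne hs]

theorem faceB_mul_right (i : Fin 3) (A : Matrix (Fin 2) (Fin 2) R)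
    (g : Fin 3 → Matrix (Fin 2) (Fin 2) R) :
    tp g * tp (Function.update 1 i A) = tp (Function.update g i (g i * A)) := by
  rw [tp_mul]
  congr 1
  funext s
  by_cases hs : s = i
  · subst hs
    simp
  · simp [Function.update_of_ne hs]

/-- A matrix in one slot, the identity in the other slots. -/
def faceB_sl (i : Fin 3) :
    Matrix (Fin 2) (Fin 2) R →ₐ[R] Matrix (Fin 3 → Fin 2) (Fin 3 → Fin 2) R :=
  AlgHom.ofLinearMap (faceB_up 1 i)
    (by
      change tp (Function.update (1 : Fin 3 → Matrix (Fin 2) (Fin 2) R) i (1 : Matrix _ _ R)) = 1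
      rw [Function.update_one]
      exact tp_one)
    (fun A B => by
      change tp (Function.update 1 i (A * B)) =
        tp (Function.update 1 i A) * tp (Function.update 1 i B)
      rw [faceB_mul_left, Function.update_idem, Function.update_self])

theorem faceB_sl_apply (i : Fin 3) (A : Matrix (Fin 2) (Fin 2) R) :
    faceB_sl i A = tp (Function.update 1 i A) := rfl

theorem faceB_entry (g : Fin 3 → Matrix (Fin 2) (Fin 2) R) (i : Fin 3)
    (A : Matrix (Fin 2) (Fin 2) R) (a b : Fin 3 → Fin 2) (s t : Fin 2) :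
    tp (Function.update g i A) (Function.update a i s) (Function.update b i t) =
      A s t * ∏ l ∈ Finset.univ.erase i, g l (a l) (b l) := by
  rw [faceB_tp_update, Function.update_self, Function.update_self]
  congr 1
  exact Finset.prod_congr rfl fun l hl => by
    rw [Function.update_of_ne (Finset.ne_of_mem_erase hl),
      Function.update_of_ne (Finset.ne_of_mem_erase hl)]

theorem faceB_sl_entry (i : Fin 3) (A : Matrix (Fin 2) (Fin 2) R) (s t : Fin 2) :
    faceB_sl i A (Function.update 0 i s) (Function.update 0 i t) = A s t := by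
  rw [faceB_sl_apply, faceB_entry]
  simp

theorem faceB_sl_inj (i : Fin 3) : Function.Injective (faceB_sl (R := R) i) := by
  intro A B h
  ext s t
  rw [← faceB_sl_entry i A, h, faceB_sl_entry]

theorem faceB_commute {i j : Fin 3} (hij : i ≠ j) (A B : Matrix (Fin 2) (Fin 2) R) :
    Commute (faceB_sl i A) (faceB_sl j B) := by
  change tp _ * tp _ = tp _ * tp _
  rw [faceB_mul_left, faceB_mul_right, Function.update_of_ne hij]
  simp

/-- A singular `2 × 2` matrix has rank at most one. -/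
theorem faceB_rank_one {f : Matrix (Fin 2) (Fin 2) R} (hf : f.det = 0)
    (M : Matrix (Fin 2) (Fin 2) R) : f * M * f = (f * M).trace • f := by
  rw [det_fin_two] at hf
  ext s t
  fin_cases s <;> fin_cases t <;>
    simp only [mul_apply, trace_fin_two, Fin.sum_univ_two, Matrix.smul_apply, smul_eq_mul,
      Fin.zero_eta, Fin.mk_one, Fin.isValue]
  · linear_combination (-M 1 1) * hf
  · linear_combination (M 0 1) * hf
  · linear_combination (M 1 0) * hf
  · linear_combination (-M 0 0) * hf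

theorem faceB_cayley (M : Matrix (Fin 2) (Fin 2) R) {μ : R}
    (h : μ ^ 2 - M.trace * μ + M.det = 0) : (M - μ • 1) * (M - (M.trace - μ) • 1) = 0 := by
  rw [det_fin_two, trace_fin_two] at h
  ext s t
  fin_cases s <;> fin_cases t <;>
    simp [mul_apply, trace_fin_two, Fin.sum_univ_two]
  · linear_combination (-1 : R) * h
  · ring
  · ring
  · linear_combination (-1 : R) * h

end Slot

theorem faceB_root [Field Ω] [IsAlgClosed Ω] (t d : Ω) : ∃ μ : Ω, μ ^ 2 - t * μ + d = 0 := by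
  have h : (X ^ 2 - C t * X + C d : Polynomial Ω).degree = 2 := by compute_degree!
  obtain ⟨μ, hμ⟩ :=
    IsAlgClosed.exists_root (X ^ 2 - C t * X + C d : Polynomial Ω) (by rw [h]; decide)
  exact ⟨μ, by simpa using hμ⟩

theorem faceB_eig [Field Ω] (M : Matrix (Fin 2) (Fin 2) Ω) {μ : Ω}
    (h : μ ^ 2 - M.trace * μ + M.det = 0) : ∃ v : Fin 2 → Ω, v ≠ 0 ∧ M *ᵥ v = μ • v := by
  have h1 : (M - μ • 1).det = 0 := by
    rw [det_fin_two, trace_fin_two] at h
    rw [det_fin_two]
    simp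
    linear_combination h
  obtain ⟨v, hv, h2⟩ := exists_mulVec_eq_zero_iff.2 h1
  refine ⟨v, hv, ?_⟩
  rwa [sub_mulVec, smul_mulVec, one_mulVec, sub_eq_zero] at h2

theorem faceB_nonscalar [Field Ω] {A : Matrix (Fin 2) (Fin 2) Ω} (hA : ∀ r : Ω, A ≠ r • 1)
    {c χ : Ω} (h0 : χ ≠ 0) (h : (c • A - 1) * (c • A - χ • 1) = 0) :
    c ≠ 0 ∧ c * A.trace = 1 + χ ∧ c ^ 2 * A.det = χ := by
  have e00 := congrFun (congrFun h 0) 0
  have e01 := congrFun (congrFun h 0) 1
  have e10 := congrFun (congrFun h 1) 0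
  have e11 := congrFun (congrFun h 1) 1
  simp only [mul_apply, Fin.sum_univ_two, Matrix.sub_apply, Matrix.smul_apply, smul_eq_mul,
    one_apply_eq,
    one_apply_ne (show (0 : Fin 2) ≠ 1 by decide), one_apply_ne (show (1 : Fin 2) ≠ 0 by decide),
    Matrix.zero_apply, mul_one, mul_zero, sub_zero] at e00 e01 e10 e11
  have hc : c ≠ 0 := by
    rintro rfl
    exact h0 (by linear_combination e00)
  have ht : c * A.trace = 1 + χ := by
    rw [trace_fin_two]
    by_contra hne
    have hu : c * (c * (A 0 0 + A 1 1) - (1 + χ)) ≠ 0 := mul_ne_zero hc (sub_ne_zero.2 hne)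
    have h01 : A 0 1 = 0 := mul_left_cancel₀ hu (by linear_combination e01)
    have h10 : A 1 0 = 0 := mul_left_cancel₀ hu (by linear_combination e10)
    have h11 : A 1 1 = A 0 0 := mul_left_cancel₀ hu (by linear_combination e11 - e00)
    refine hA (A 0 0) ?_
    ext s t
    fin_cases s <;> fin_cases t <;> simp [h01, h10, h11]
  refine ⟨hc, ht, ?_⟩
  rw [trace_fin_two] at ht
  rw [det_fin_two]
  linear_combination (c * A 0 0) * ht - e00

/-- Slot trick: with eigenvectors `v s` (eigenvalue `μ s`) in the slots `s ≠ j`, the map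
`x ↦ tv (update v j x)` is injective and intertwines `c • g j`, `c = ∏ μ s`, with `tp g`. -/
theorem slot_quadratic [Field Ω] {g : Fin 3 → Matrix (Fin 2) (Fin 2) Ω} {χ : Ω}
    (hg : (tp g - 1) * (tp g - χ • 1) = 0) (j : Fin 3) (v : Fin 3 → Fin 2 → Ω) (μ : Fin 3 → Ω)
    (hv : ∀ s, s ≠ j → v s ≠ 0 ∧ g s *ᵥ v s = μ s • v s) :
    ((∏ s ∈ Finset.univ.erase j, μ s) • g j - 1) *
      ((∏ s ∈ Finset.univ.erase j, μ s) • g j - χ • 1) = 0 := by
  let T : (Fin 2 → Ω) →ₗ[Ω] ((Fin 3 → Fin 2) → Ω) :=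
    { toFun := fun x => tv (Function.update v j x)
      map_add' := fun x y => by
        funext a
        simp only [faceB_tv_update, Pi.add_apply, add_mul]
      map_smul' := fun c x => by
        funext a
        simp only [faceB_tv_update, Pi.smul_apply, smul_eq_mul, mul_assoc, RingHom.id_apply] }
  have hT : ∀ x a, T x a = x (a j) * ∏ s ∈ Finset.univ.erase j, v s (a s) :=
    fun x a => faceB_tv_update v j x a
  have hne : ∀ s, ∃ t, s ≠ j → v s t ≠ 0 := by
    intro s
    by_cases hs : s = j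
    · exact ⟨0, fun h => (h hs).elim⟩
    · obtain ⟨t, ht⟩ := Function.ne_iff.1 (hv s hs).1
      exact ⟨t, fun _ => ht⟩
  choose a ha using hne
  have hinj : ∀ x, T x = 0 → x = 0 := by
    intro x hx
    funext t
    have h1 := congrFun hx (Function.update a j t)
    rw [hT, Function.update_self, Pi.zero_apply, mul_eq_zero] at h1
    refine h1.resolve_right (Finset.prod_ne_zero_iff.2 fun s hs => ?_)
    rw [Function.update_of_ne (Finset.ne_of_mem_erase hs)]
    exact ha s (Finset.ne_of_mem_erase hs)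
  set B := (∏ s ∈ Finset.univ.erase j, μ s) • g j with hB
  have h1 : ∀ x, tp g *ᵥ T x = T (B *ᵥ x) := by
    intro x
    funext b
    have h2 : tp g *ᵥ T x = tv fun s => g s *ᵥ Function.update v j x s := tp_mulVec g _
    have h3 : ∏ s ∈ Finset.univ.erase j, (g s *ᵥ Function.update v j x s) (b s) =
        ∏ s ∈ Finset.univ.erase j, μ s * v s (b s) :=
      Finset.prod_congr rfl fun s hs => by
        rw [Function.update_of_ne (Finset.ne_of_mem_erase hs),
          (hv s (Finset.ne_of_mem_erase hs)).2, Pi.smul_apply, smul_eq_mul]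
    rw [h2, hT, tv, ← Finset.mul_prod_erase _ _ (Finset.mem_univ j), h3, Function.update_self,
      Finset.prod_mul_distrib, hB, smul_mulVec, Pi.smul_apply, smul_eq_mul]
    ring
  have h2 : ∀ x, (tp g - 1) *ᵥ T x = T ((B - 1) *ᵥ x) := fun x => by
    rw [sub_mulVec, sub_mulVec, one_mulVec, one_mulVec, map_sub, h1]
  have h3 : ∀ x, (tp g - χ • 1) *ᵥ T x = T ((B - χ • 1) *ᵥ x) := fun x => by
    rw [sub_mulVec, sub_mulVec, smul_mulVec χ, smul_mulVec χ, one_mulVec, one_mulVec, map_sub,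
      map_smul, h1]
  refine ext_of_mulVec_single fun t => ?_
  rw [zero_mulVec, ← mulVec_mulVec]
  apply hinj
  rw [← h2, ← h3, mulVec_mulVec, hg, zero_mulVec]

/-- A non-scalar `2 × 2` matrix `A` with `(A - 1) (A - χ) = 0` has determinant `χ` and the two
eigenvalues `1`, `χ`. If `g j` and `g k` are both non-scalar, the two eigenvalues `μ, μ'` of `g k`
(ratio `χ`) give `c ^ 2 det = χ = c' ^ 2 det`, so `χ ^ 2 = 1`. -/
theorem exists_slot [Field Ω] [IsAlgClosed Ω] {g : Fin 3 → Matrix (Fin 2) (Fin 2) Ω} {χ : Ω}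
    (hg : (tp g - 1) * (tp g - χ • 1) = 0) (h0 : χ ≠ 0) (h2 : χ ^ 2 ≠ 1) :
    ∃ (i : Fin 3) (A : Matrix (Fin 2) (Fin 2) Ω), tp g = tp (Function.update 1 i A) := by
  have hev : ∀ s, ∃ (w : Fin 2 → Ω) (m : Ω), w ≠ 0 ∧ g s *ᵥ w = m • w := by
    intro s
    obtain ⟨m, hm⟩ := faceB_root (g s).trace (g s).det
    obtain ⟨w, hw⟩ := faceB_eig (g s) hm
    exact ⟨w, m, hw⟩
  choose v μ hv using hev
  have key : ∀ j k, k ≠ j → (∀ r : Ω, g j ≠ r • 1) → ∃ r : Ω, g k = r • 1 := by
    intro j k hkj hj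
    by_contra hk
    have hk' : ∀ r : Ω, g k ≠ r • 1 := fun r hr => hk ⟨r, hr⟩
    obtain ⟨hc, ht, hd⟩ := faceB_nonscalar hk' h0 (slot_quadratic hg k v μ fun s _ => hv s)
    generalize ∏ s ∈ Finset.univ.erase k, μ s = c at hc ht hd
    have h3 : ∀ m : Ω, m ^ 2 - (g k).trace * m + (g k).det = 0 →
        m * (∏ s ∈ Finset.univ.erase j \ {k}, μ s) * (g j).trace = 1 + χ := by
      intro m hm
      obtain ⟨w, hw⟩ := faceB_eig (g k) hm
      have h4 := slot_quadratic hg j (Function.update v k w) (Function.update μ k m) fun s _ => by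
        by_cases hs : s = k
        · subst hs
          simpa using hw
        · simpa [Function.update_of_ne hs] using hv s
      rw [Finset.prod_update_of_mem (Finset.mem_erase.2 ⟨hkj, Finset.mem_univ k⟩)] at h4
      exact (faceB_nonscalar hj h0 h4).2.1
    have h5 := h3 c⁻¹ (by
      field_simp
      linear_combination hd - ht)
    have h6 := h3 (χ * c⁻¹) (by
      field_simp
      linear_combination hd - χ * ht)
    exact h2 (by linear_combination h6 - χ * h5)
  obtain ⟨i, hi⟩ : ∃ i, ∀ s, ∃ r : Ω, s ≠ i → g s = r • 1 := by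
    by_cases h : ∃ j, ∀ r : Ω, g j ≠ r • 1
    · obtain ⟨j, hj⟩ := h
      refine ⟨j, fun s => ?_⟩
      by_cases hs : s = j
      · exact ⟨0, fun h => (h hs).elim⟩
      · obtain ⟨r, hr⟩ := key j s hs hj
        exact ⟨r, fun _ => hr⟩
    · refine ⟨0, fun s => ?_⟩
      by_contra hs
      exact h ⟨s, fun r hr => hs ⟨r, fun _ => hr⟩⟩
  choose r hr using hi
  refine ⟨i, (∏ s ∈ Finset.univ.erase i, r s) • g i, ?_⟩
  ext a b
  have h3 : ∏ s ∈ Finset.univ.erase i, g s (a s) (b s) =
      ∏ s ∈ Finset.univ.erase i, r s * (1 : Matrix (Fin 2) (Fin 2) Ω) (a s) (b s) :=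
    Finset.prod_congr rfl fun s hs => by
      rw [hr s (Finset.ne_of_mem_erase hs), Matrix.smul_apply, smul_eq_mul]
  rw [faceB_tp_update, tp, of_apply, ← Finset.mul_prod_erase _ _ (Finset.mem_univ i), h3,
    Finset.prod_mul_distrib, Matrix.smul_apply, smul_eq_mul]
  simp only [Pi.one_apply]
  ring

section Norms

variable [NormedField Ω] [IsUltrametricDist Ω]

theorem faceB_nadd {x y : Ω} (hx : ‖x‖ ≤ 1) (hy : ‖y‖ ≤ 1) : ‖x + y‖ ≤ 1 :=
  (IsUltrametricDist.norm_add_le_max x y).trans (max_le hx hy)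

theorem faceB_nsub {x y : Ω} (hx : ‖x‖ ≤ 1) (hy : ‖y‖ ≤ 1) : ‖x - y‖ ≤ 1 := by
  rw [sub_eq_add_neg]
  exact faceB_nadd hx (by rwa [norm_neg])

omit [IsUltrametricDist Ω] in
theorem faceB_nmul {x y : Ω} (hx : ‖x‖ ≤ 1) (hy : ‖y‖ ≤ 1) : ‖x * y‖ ≤ 1 := by
  rw [norm_mul]
  exact mul_le_one₀ hx (norm_nonneg _) hy

omit [IsUltrametricDist Ω] in
theorem faceB_MI_one : MI (1 : Matrix (Fin 2) (Fin 2) Ω) := by
  intro s t
  rw [one_apply]
  split_ifs <;> simp

omit [IsUltrametricDist Ω] in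
theorem faceB_MI_sl (i : Fin 3) {A : Matrix (Fin 2) (Fin 2) Ω} (hA : MI A) :
    MI (faceB_sl i A) := by
  intro a b
  rw [faceB_sl_apply, faceB_tp_update]
  refine faceB_nmul (hA _ _) ?_
  rw [norm_prod]
  exact Finset.prod_le_one (fun _ _ => norm_nonneg _) fun s _ => faceB_MI_one _ _

theorem faceB_roots [IsAlgClosed Ω] {M : Matrix (Fin 2) (Fin 2) Ω} (hM : MI M) :
    ∃ a : Fin 2 → Ω, (M - a 0 • 1) * (M - a 1 • 1) = 0 ∧ ∀ i, ‖a i‖ ≤ 1 := by
  obtain ⟨μ, hμ⟩ := faceB_root M.trace M.det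
  have ht : ‖M.trace‖ ≤ 1 := by
    rw [trace_fin_two]
    exact faceB_nadd (hM _ _) (hM _ _)
  have hd : ‖M.det‖ ≤ 1 := by
    rw [det_fin_two]
    exact faceB_nsub (faceB_nmul (hM _ _) (hM _ _)) (faceB_nmul (hM _ _) (hM _ _))
  have hn : ‖μ‖ ≤ 1 := by
    by_contra hlt
    have h1 : 1 < ‖μ‖ := not_le.1 hlt
    have h0 : μ ≠ 0 := norm_pos_iff.1 (zero_lt_one.trans h1)
    have h2 : μ = M.trace - M.det * μ⁻¹ := by
      field_simp
      linear_combination hμ
    have h3 : ‖μ⁻¹‖ ≤ 1 := by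
      rw [norm_inv]
      exact inv_le_one_of_one_le₀ h1.le
    exact hlt (h2 ▸ faceB_nsub ht (faceB_nmul hd h3))
  refine ⟨![μ, M.trace - μ], faceB_cayley M hμ, fun i => ?_⟩
  fin_cases i
  · exact hn
  · exact faceB_nsub ht hn

end Norms

/-- `e = tp (update 1 i e₀)` with `e₀` idempotent, `≠ 0, 1`, integral (its entries are entries of
`e`); `f = 1 - e₀` has rank one, `f * h i * e₀ = 0` (the other `h s` are non-zero), so
`f * h i = f * h i * f = lam • f` with `lam = trace (f * h i)`. `A`, `B` are `h j`, `h k` in their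
slots, `a`, `b` the roots of their characteristic polynomials (Cayley-Hamilton), which are
integral. -/
theorem exists_face [NormedField Ω] [IsUltrametricDist Ω] [IsAlgClosed Ω]
    {g h : Fin 3 → Matrix (Fin 2) (Fin 2) Ω} {χ : Ω}
    {e : Matrix (Fin 3 → Fin 2) (Fin 3 → Fin 2) Ω} (hge : tp g - 1 = (χ - 1) • e)
    (he : e * e = e) (he0 : e ≠ 0) (he1 : e ≠ 1) (ie : MI e) (h0 : χ ≠ 0) (h2 : χ ^ 2 ≠ 1)
    (ih : ∀ s, MI (h s)) (hh : tp h ≠ 0) (hhe : (1 - e) * tp h * e = 0) :
    ∃ (A B : Matrix (Fin 3 → Fin 2) (Fin 3 → Fin 2) Ω) (a b : Fin 2 → Ω) (lam : Ω),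
      Commute (1 - e) A ∧ Commute (1 - e) B ∧ Commute A B ∧ MI A ∧ MI B ∧
      (A - a 0 • 1) * (A - a 1 • 1) = 0 ∧ (B - b 0 • 1) * (B - b 1 • 1) = 0 ∧
      (∀ i, ‖a i‖ ≤ 1) ∧ (∀ i, ‖b i‖ ≤ 1) ∧ ‖lam‖ ≤ 1 ∧
      (1 - e) * tp h = lam • ((1 - e) * A * B) := by
  have h1 : χ - 1 ≠ 0 := fun h => h2 (by rw [sub_eq_zero.1 h, one_pow])
  have hg : (tp g - 1) * (tp g - χ • 1) = 0 := by
    have h3 : tp g - χ • 1 = (χ - 1) • (e - 1) := by
      rw [smul_sub, ← hge, sub_smul, one_smul]
      abel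
    rw [h3, hge, smul_mul_smul_comm, mul_sub e, he, mul_one, sub_self, smul_zero]
  obtain ⟨i, A0, hA0⟩ := exists_slot hg h0 h2
  obtain ⟨e₀, rfl⟩ : ∃ e₀, e = faceB_sl i e₀ := by
    refine ⟨(χ - 1)⁻¹ • (A0 - 1), ?_⟩
    rw [map_smul, map_sub, map_one, faceB_sl_apply, ← hA0, hge, smul_smul, inv_mul_cancel₀ h1,
      one_smul]
  obtain ⟨f, hf⟩ : ∃ f, f = 1 - e₀ := ⟨_, rfl⟩
  have hF : 1 - faceB_sl i e₀ = faceB_sl i f := by rw [hf, map_sub, map_one]
  rw [hF] at hhe ⊢
  have hee : e₀ * e₀ = e₀ := faceB_sl_inj i (by rw [map_mul, he])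
  have hne : e₀ ≠ 0 := fun h => he0 (by rw [h, map_zero])
  have hfe : f * e₀ = 0 := by rw [hf, sub_mul, one_mul, hee, sub_self]
  have hdet : f.det = 0 := by
    by_contra hd
    have hu : IsUnit f := (isUnit_iff_isUnit_det f).2 (IsUnit.mk0 _ hd)
    exact hne (hu.mul_right_eq_zero.1 hfe)
  have iF : MI f := fun s t => by
    rw [hf, Matrix.sub_apply, ← faceB_sl_entry i e₀]
    exact faceB_nsub (faceB_MI_one _ _) (ie _ _)
  have hfh : f * h i * e₀ = 0 := by
    obtain ⟨a, ha⟩ := Function.ne_iff.1 hh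
    obtain ⟨b, hb⟩ := Function.ne_iff.1 ha
    have h3 : ∏ l ∈ Finset.univ.erase i, h l (a l) (b l) ≠ 0 := by
      intro h4
      apply hb
      rw [tp, of_apply, ← Finset.mul_prod_erase _ _ (Finset.mem_univ i), h4, mul_zero]
      rfl
    rw [faceB_sl_apply, faceB_sl_apply, faceB_mul_left, faceB_mul_right, Function.update_idem,
      Function.update_self] at hhe
    ext s t
    have h4 := faceB_entry h i (f * h i * e₀) a b s t
    rw [hhe] at h4
    exact (mul_eq_zero.1 h4.symm).resolve_right h3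
  have hlam : f * h i = (f * h i).trace • f := by
    rw [← faceB_rank_one hdet]
    have h3 : f * h i * f = f * h i * (1 - e₀) := by rw [← hf]
    rw [h3, mul_sub, mul_one, hfh, sub_zero]
  obtain ⟨j, k, hij, hik, hjk, hall⟩ := faceB_three i
  obtain ⟨a, ha, na⟩ := faceB_roots (ih j)
  obtain ⟨b, hb, nb⟩ := faceB_roots (ih k)
  refine ⟨faceB_sl j (h j), faceB_sl k (h k), a, b, (f * h i).trace, faceB_commute hij _ _,
    faceB_commute hik _ _, faceB_commute hjk _ _, faceB_MI_sl j (ih j), faceB_MI_sl k (ih k),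
    ?_, ?_, na, nb, ?_, ?_⟩
  · have h3 := congrArg (faceB_sl j) ha
    rwa [map_mul, map_sub, map_sub, map_smul, map_smul, map_one, map_zero] at h3
  · have h3 := congrArg (faceB_sl k) hb
    rwa [map_mul, map_sub, map_sub, map_smul, map_smul, map_one, map_zero] at h3
  · rw [trace_fin_two, mul_apply, mul_apply, Fin.sum_univ_two, Fin.sum_univ_two]
    exact faceB_nadd
      (faceB_nadd (faceB_nmul (iF _ _) (ih i _ _)) (faceB_nmul (iF _ _) (ih i _ _)))
      (faceB_nadd (faceB_nmul (iF _ _) (ih i _ _)) (faceB_nmul (iF _ _) (ih i _ _)))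
  · have h3 : faceB_sl i f * faceB_sl j (h j) * faceB_sl k (h k) = faceB_up h i f := by
      rw [faceB_sl_apply, faceB_sl_apply, faceB_sl_apply, tp_mul, tp_mul]
      change tp _ = tp _
      congr 1
      funext s
      rcases hall s with rfl | rfl | rfl
      · simp [Function.update_of_ne hij, Function.update_of_ne hik]
      · simp [Function.update_of_ne hij.symm, Function.update_of_ne hjk]
      · simp [Function.update_of_ne hik.symm, Function.update_of_ne hjk.symm]
    rw [h3, ← map_smul, ← hlam, faceB_sl_apply, faceB_mul_left]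
    rfl

end

end M8.B2
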