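import Pool.Agent.Lib.MP_33b3f9_ag.M8.B2.Defs
import Pool.Agent.Lib.MP_33b3f9_ag.M8.B2.Gram

/-!
One integral minimal polynomial for all `l`.
-/

set_option autoImplicit false

namespace M8.B2

open M4

open Matrix Polynomial

noncomputable section

variable {h : ℤ[X] → ℕ} {B : ℤ[X] →ₗ[ℤ] ℤ[X] →ₗ[ℤ] ℤ}

theorem weilA_aeval {S : Type} [CommRing S] (π : Matrix ν ν S) (a : ℤ[X]) :
    aeval π a = aeval π (a.map (Int.castRingHom S)) := by
  rw [← algebraMap_int_eq, aeval_map_algebraMap]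

/-- Approximate `c` by `a` modulo `l ^ n`; `l ^ (2 n)` divides `h a` and
`h (a + l ^ n b) = h a + l ^ n B a b + l ^ (2 n) h b`. -/
theorem ext2_of_aeval {l : ℕ} [Fact l.Prime] (hp : Par h) (hB : IsPolar h B)
    {π : Matrix ν ν ℤ_[l]}
    (hd : ∀ (n : ℕ) (a : ℤ[X]), (∀ i j, (l : ℤ_[l]) ^ n ∣ aeval π a i j) → l ^ (2 * n) ∣ h a)
    {c : ℤ_[l][X]} (hc : aeval π c = 0) (b : ℤ_[l][X]) : ext2 ℤ_[l] B c b = 0 := by
  refine ext2_eq_zero (fun b => eq_zero_of_pow_dvd fun n => ?_) b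
  obtain ⟨a, r, har⟩ := exists_poly_appr c n
  have ha : ∀ i j, (l : ℤ_[l]) ^ n ∣ aeval π a i j := fun i j => by
    rw [weilA_aeval, har, map_add, hc, zero_add, map_mul, aeval_C, ← Algebra.smul_def]
    exact ⟨_, rfl⟩
  have hb : ∀ i j, (l : ℤ_[l]) ^ n ∣ aeval π (((l : ℤ) ^ n) • b) i j := fun i j => by
    rw [map_smul, Matrix.smul_apply, zsmul_eq_mul]
    push_cast
    exact ⟨_, rfl⟩
  have h1 := Int.natCast_dvd_natCast.2 (hd n _ ha)
  have h2 := Int.natCast_dvd_natCast.2 (hd n _ hb)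
  have h3 := Int.natCast_dvd_natCast.2 (hd n (a + ((l : ℤ) ^ n) • b) fun i j => by
    rw [map_add, Matrix.add_apply]; exact dvd_add (ha i j) (hb i j))
  have h4 := dvd_sub (dvd_sub h3 h1) h2
  rw [← hB, map_smul, smul_eq_mul, two_mul] at h4
  push_cast at h4
  rw [pow_add, mul_dvd_mul_iff_left
    (pow_ne_zero _ (Int.natCast_ne_zero.2 (Fact.out : l.Prime).ne_zero))] at h4
  obtain ⟨k, hk⟩ := h4
  have h5 := ext2_map (R := ℤ_[l]) (B := B) a b
  rw [har, map_add, LinearMap.add_apply, ← smul_eq_C_mul, map_smul, LinearMap.smul_apply,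
    smul_eq_mul, hk] at h5
  push_cast at h5
  exact ⟨k - ext2 ℤ_[l] B r (b.map (Int.castRingHom ℤ_[l])), by linear_combination h5⟩

theorem weilA_pseudo (a : ℤ[X]) {m : ℤ[X]} (hm : m ≠ 0) :
    ∃ (n : ℤ) (q : ℤ[X]), n ≠ 0 ∧ (C n * a - m * q).degree < m.degree := by
  have hinj : Function.Injective (algebraMap ℤ ℚ) := (algebraMap ℤ ℚ).injective_int
  have hm' : m.map (algebraMap ℤ ℚ) ≠ 0 := (Polynomial.map_ne_zero_iff hinj).2 hm
  obtain ⟨n, hn, hq⟩ := IsLocalization.integerNormalization_spec (nonZeroDivisors ℤ)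
    (a.map (algebraMap ℤ ℚ) / m.map (algebraMap ℤ ℚ))
  refine ⟨n, IsLocalization.integerNormalization (nonZeroDivisors ℤ)
    (a.map (algebraMap ℤ ℚ) / m.map (algebraMap ℤ ℚ)), nonZeroDivisors.ne_zero hn, ?_⟩
  rw [← degree_map_eq_of_injective hinj, ← degree_map_eq_of_injective hinj m,
    Polynomial.map_sub, Polynomial.map_mul, Polynomial.map_mul, hq, map_C]
  have h1 := EuclideanDomain.mod_add_div (a.map (algebraMap ℤ ℚ)) (m.map (algebraMap ℤ ℚ))
  have h2 : C (algebraMap ℤ ℚ n) * a.map (algebraMap ℤ ℚ) - m.map (algebraMap ℤ ℚ) *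
      n • (a.map (algebraMap ℤ ℚ) / m.map (algebraMap ℤ ℚ)) =
      (algebraMap ℤ ℚ n) • (a.map (algebraMap ℤ ℚ) % m.map (algebraMap ℤ ℚ)) := by
    rw [smul_eq_C_mul, zsmul_eq_mul, eq_intCast, map_intCast]
    linear_combination (-(n : ℚ[X])) * h1
  rw [h2]
  exact (degree_smul_le _ _).trans_lt (degree_mod_lt _ hm')

/-- An ideal that is the zero set of `h` and is not zero is generated by a monic polynomial. Take
`m ≠ 0` of least degree `r` in `I`. The map `a ↦ (B a (X ^ i))_(i < r)` has kernel `I` (pseudo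
division, `ext2_nondeg` over `ℤ`, `h (n a) = n ^ 2 h a`), so `ℤ[X] ⧸ I` is a finite module and `I`
contains a monic polynomial; Gauss lemma. -/
theorem exists_monic_gen (hp : Par h) (I : Ideal ℤ[X]) (hI : ∀ a, h a = 0 ↔ a ∈ I)
    (h0 : I ≠ ⊥) : ∃ Q : ℤ[X], Q.Monic ∧ ∀ a, h a = 0 ↔ Q ∣ a := by
  classical
  obtain ⟨B, hB⟩ := exists_polar hp
  have hsat : ∀ (n : ℤ) (a : ℤ[X]), n ≠ 0 → C n * a ∈ I → a ∈ I := fun n a hn ha => by
    have h1 := hB.self hp (C n * a)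
    rw [(hI _).2 ha, ← smul_eq_C_mul, map_smul, map_smul, LinearMap.smul_apply, hB.self hp] at h1
    simp only [smul_eq_mul, Nat.cast_zero, mul_zero, mul_eq_zero, hn, false_or,
      OfNat.ofNat_ne_zero, Nat.cast_eq_zero] at h1
    exact (hI a).1 h1
  have hex : ∃ r, ∃ m ∈ I, m ≠ 0 ∧ m.natDegree = r := by
    obtain ⟨m, hm, hm0⟩ := Submodule.exists_mem_ne_zero_of_ne_bot h0
    exact ⟨_, m, hm, hm0, rfl⟩
  obtain ⟨m, hmI, hm0, hr⟩ := Nat.find_spec hex
  have hmin : ∀ a ∈ I, a.degree < m.degree → a = 0 := fun a ha hlt => by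
    by_contra ha0
    have := Nat.find_min' hex ⟨a, ha, ha0, rfl⟩
    rw [← hr] at this
    exact absurd (natDegree_lt_natDegree ha0 hlt) (not_lt.2 this)
  have hdeg : m.degree = m.natDegree := degree_eq_natDegree hm0
  let φ : ℤ[X] →ₗ[ℤ] (Fin m.natDegree → ℤ) := LinearMap.pi fun i => B.flip (X ^ (i : ℕ))
  have hker : ∀ a, φ a = 0 → a ∈ I := fun a ha => by
    obtain ⟨n, q, hn, hlt⟩ := weilA_pseudo a hm0
    have hq : m * q ∈ I := I.mul_mem_right _ hmI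
    have hz : C n * a - m * q = 0 := by
      refine ext2_nondeg (R := ℤ) (r := m.natDegree) hp hB
        (fun b hb h0 => hmin b ((hI b).1 h0) (hdeg ▸ hb)) (hdeg ▸ hlt) fun i hi => ?_
      have h1 := ext2_map (R := ℤ) (B := B) (C n * a - m * q) (X ^ i)
      rw [show Int.castRingHom ℤ = RingHom.id ℤ from RingHom.ext_int _ _, Polynomial.map_id,
        Polynomial.map_id] at h1
      have h2 : B a (X ^ i) = 0 := congrFun ha ⟨i, hi⟩
      rw [h1, map_sub, LinearMap.sub_apply, hB.eq_zero hp ((hI _).2 hq), ← smul_eq_C_mul,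
        map_smul, LinearMap.smul_apply, h2]
      simp
    exact hsat n a hn (by rw [sub_eq_zero.1 hz]; exact hq)
  obtain ⟨N, hN⟩ := monotone_stabilizes_iff_noetherian.2
    (inferInstance : IsNoetherian ℤ (Fin m.natDegree → ℤ))
    ⟨fun n => (degreeLT ℤ n).map φ, fun i j hij => Submodule.map_mono (degreeLT_mono hij)⟩
  have hX : φ (X ^ N) ∈ (degreeLT ℤ N).map φ := by
    have : (degreeLT ℤ N).map φ = (degreeLT ℤ (N + 1)).map φ := hN (N + 1) (Nat.le_succ N)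
    rw [this]
    refine Submodule.mem_map_of_mem (mem_degreeLT.2 ?_)
    rw [degree_X_pow]
    exact_mod_cast Nat.lt_succ_self N
  obtain ⟨a, ha, haX⟩ := hX
  have hmon : (X ^ N - a).Monic := monic_X_pow_sub (mem_degreeLT.1 ha)
  have hmem : X ^ N - a ∈ I := hker _ (by rw [map_sub, haX, sub_self])
  have hc0 : m.content ≠ 0 := mt content_eq_zero_iff.1 hm0
  have hpI : m.primPart ∈ I := hsat _ _ hc0 (by rwa [← eq_C_content_mul_primPart])
  have hgen : ∀ b ∈ I, m.primPart ∣ b := fun b hb => by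
    rcases eq_or_ne b 0 with rfl | hb0
    · exact dvd_zero _
    obtain ⟨n, q, hn, hlt⟩ := weilA_pseudo b hm0
    have hz := hmin _ (I.sub_mem (I.mul_mem_left _ hb) (I.mul_mem_right _ hmI)) hlt
    have h1 : m.primPart ∣ C n * b := (primPart_dvd m).trans ⟨q, sub_eq_zero.1 hz⟩
    have h2 : C n * b ≠ 0 := mul_ne_zero (C_ne_zero.2 hn) hb0
    rw [← (isPrimitive_primPart m).dvd_primPart_iff_dvd h2, primPart_mul h2,
      (isUnit_primPart_C n).dvd_mul_left] at h1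
    exact h1.trans (primPart_dvd b)
  obtain ⟨q, hq⟩ := hgen _ hmem
  have hlc : q.leadingCoeff * m.primPart.leadingCoeff = 1 := by
    rw [mul_comm, ← leadingCoeff_mul, ← hq]; exact hmon
  refine ⟨C q.leadingCoeff * m.primPart, monic_C_mul_of_mul_leadingCoeff_eq_one hlc, fun b => ?_⟩
  rw [hI, (isUnit_C.2 (IsUnit.of_mul_eq_one _ hlc)).mul_left_dvd]
  exact ⟨hgen b, fun ⟨c, hc⟩ => hc ▸ I.mul_mem_right _ hpI⟩

/-- The characteristic polynomial at `l₁` lies in the radical, so `I ≠ ⊥` (`ext2_nondeg` with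
`r = 17`). With `Q` from `exists_monic_gen`: `Q` divides every polynomial that kills `π l`
(`dvd_of_ext2`). -/
theorem exists_weil_poly {P : Nat.Primes} (π : ∀ l : Nat.Primes, Matrix ν ν ℤ_[l]) (hp : Par h)
    (h0 : ∀ a, h a = 0 ↔ ∀ l, l ≠ P → aeval (π l) a = 0)
    (hd : ∀ l : Nat.Primes, l ≠ P → ∀ (n : ℕ) (a : ℤ[X]),
      (∀ i j, (l.1 : ℤ_[l]) ^ n ∣ aeval (π l) a i j) → l.1 ^ (2 * n) ∣ h a)
    {l₁ : Nat.Primes} (hl : l₁ ≠ P) :
    ∃ Q : ℤ[X], Q.Monic ∧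
      (∀ l : Nat.Primes, l ≠ P → ∀ c : ℤ_[l][X], aeval (π l) c = 0 →
        Q.map (Int.castRingHom ℤ_[l]) ∣ c) ∧
      ∀ a, h a = 0 ↔ Q ∣ a := by
  obtain ⟨B, hB⟩ := exists_polar hp
  have hrad : ∀ b, ext2 ℤ_[l₁] B (π l₁).charpoly b = 0 := fun b =>
    ext2_of_aeval hp hB (hd l₁ hl) (aeval_self_charpoly _) b
  have hcard : Fintype.card ν = 16 := by simp
  let I : Ideal ℤ[X] := ⨅ l : {l : Nat.Primes // l ≠ P}, RingHom.ker (aeval (π l.1))
  have hI : ∀ a, h a = 0 ↔ a ∈ I := fun a => by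
    rw [h0, Ideal.mem_iInf]
    exact ⟨fun H l => H l.1 l.2, fun H l hl => H ⟨l, hl⟩⟩
  have hI0 : I ≠ ⊥ := fun hb => by
    refine (π l₁).charpoly_monic.ne_zero (ext2_nondeg (r := 17) hp hB
      (fun a _ ha => ?_) ?_ fun i _ => hrad _)
    · have := (hI a).1 ha
      rwa [hb, Ideal.mem_bot] at this
    · rw [Matrix.charpoly_degree_eq_dim, hcard]
      exact_mod_cast (by norm_num : (16 : ℕ) < 17)
  obtain ⟨Q, hQ, hQh⟩ := exists_monic_gen hp I hI hI0
  exact ⟨Q, hQ, fun l hl c hc => dvd_of_ext2 hp hB hQ hQh (ext2_of_aeval hp hB (hd l hl) hc), hQh⟩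

end

end M8.B2
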