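import Pool.Agent.Lib.MP_33b3f9_ag.M8.B2.Dec
import Pool.Agent.Lib.MP_33b3f9_ag.M8.B2.Cmp
import Pool.Agent.Lib.MP_33b3f9_ag.M8.B2.WeilA
import Pool.Agent.Lib.MP_33b3f9_ag.M8.B2.WeilB
import Pool.Agent.Lib.MP_33b3f9_ag.M8.B2.Iso
import Pool.Agent.Lib.MP_33b3f9_ag.M8.B2.FaceD
import Pool.Agent.Lib.MP_33b3f9_ag.M8.B2.CubeP

/-!
The Weil polynomial and the comparison theorem for a setup.
-/

set_option autoImplicit false

namespace M8.B2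

open M4

open Matrix Polynomial

noncomputable section

open Pool.Agent.M4.Det

variable {P : Nat.Primes} {ι : Type} [Fintype ι] (S : Setup P ι)
  {s : PadicAlgCl P ≃ₐ[ℚ_[P]] PadicAlgCl P} (hs : IsFrob s)

/-- `Q` is the minimal polynomial of the Frobenius. -/
structure Setup.Weil (s : PadicAlgCl P ≃ₐ[ℚ_[P]] PadicAlgCl P) (Q : ℤ[X]) : Prop where
  monic : Q.Monic
  weil : ∀ z : ℂ, aeval z Q = 0 → ‖z‖ ^ 2 = P.1
  zero : ∀ l : Nat.Primes, l ≠ P → aeval (S.R s l : Matrix ν ν ℤ_[l]) Q = 0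
  dvd : ∀ l : Nat.Primes, l ≠ P → ∀ c : ℤ_[l][X], aeval (S.R s l : Matrix ν ν ℤ_[l]) c = 0 →
    Q.map (Int.castRingHom ℤ_[l]) ∣ c

include S in
theorem few_two : (⟨2, Nat.prime_two⟩ : Nat.Primes) ≠ P :=
  fun e => S.odd (congrArg Subtype.val e).symm

theorem few_aeval {k : Type} [Field k] [Algebra ℚ k] (π : Matrix ν ν k) {δ : ℤ[X]} {N : ℚ}
    {γ : ℚ[X]} (hδ : δ.map (Int.castRingHom ℚ) = C N * γ) :
    aeval π δ = algebraMap ℚ k N • aeval π (γ.map (algebraMap ℚ k)) := by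
  have h1 : δ.map (algebraMap ℤ k) = C (algebraMap ℚ k N) * γ.map (algebraMap ℚ k) := by
    rw [← Polynomial.map_C, ← Polynomial.map_mul, ← hδ, Polynomial.map_map]
    exact congrArg (fun f => Polynomial.map f δ) (RingHom.ext_int _ _)
  rw [← aeval_map_algebraMap k π δ, h1, map_mul, aeval_C, Algebra.smul_def]

/-- `exists_weil_poly`, `norm_root_sq`, `polV_eq_zero`, `polV_lam`. -/
theorem Setup.exists_weil (ho : Outs (S.toTD hs)) : ∃ Q, S.Weil s Q := by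
  obtain ⟨H, hp, hX, h0, hN, -⟩ := ho.weil
  obtain ⟨Q, h1, h4, h5⟩ := exists_weil_poly (P := P)
    (fun l => (S.R s l : Matrix ν ν ℤ_[l])) hp
    (fun a => (h0 a).trans (S.polV_eq_zero hs a)) (fun l hl n a ha => by
      have hd : ¬ P.1 ∣ l.1 ^ n := fun hd =>
        hl (Subtype.ext ((Nat.prime_dvd_prime_iff_eq P.2 l.2).1 (P.2.dvd_of_dvd_pow hd)).symm)
      have h6 := hN (l.1 ^ n) a hd fun x hx => S.polV_lam hs n a ha x hx
      rwa [← pow_mul, mul_comm] at h6) (few_two S)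
  exact ⟨Q, h1, fun z hz => norm_root_sq hp hX h1 h5 hz,
    (S.polV_eq_zero hs Q).1 ((h0 Q).1 ((h5 Q).2 dvd_rfl)), h4⟩

/-- Look at the prime `2`. -/
theorem Setup.polV_iff {Q : ℤ[X]} (hQ : S.Weil s Q) (a : ℤ[X]) :
    (S.toTD hs).polV a = 0 ↔ Q ∣ a := by
  rw [S.polV_eq_zero hs a]
  refine ⟨fun h => ?_, ?_⟩
  · have h1 := h _ (few_two S)
    rw [weilA_aeval] at h1
    exact (map_dvd_map _ Int.cast_injective hQ.monic).1 (hQ.dvd _ (few_two S) _ h1)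
  · rintro ⟨c, rfl⟩ l hl
    rw [map_mul, hQ.zero l hl, zero_mul]

/-- `exists_inert`, `exists_idem`, `exists_eigen` (with `matW_mem`), `face_int`, `matW_mem`. -/
theorem Setup.polW_mem (ho : Outs (S.toTD hs)) (hp : 5 ≤ P.1) {Q : ℤ[X]} (hQ : S.Weil s Q)
    (hO : (S.toTD hs).Ord) (hT : Tens fun t => (S.R t P : Matrix ν ν ℤ_[P]))
    {β u v : PadicAlgCl P} (hq : Sq β u v)
    (hr : ∀ i j : Fin 2, aeval (β * u ^ (i : ℕ) * v ^ (j : ℕ)) Q = 0) {δ : ℤ[X]} {j : ℕ}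
    (hδ : Prod2 β u v (C ((P.1 : PadicAlgCl P) ^ j)⁻¹ * δ.map (Int.castRingHom _)))
    (y : WW P) (hy : P.1 ^ j • y = 0) : (S.toTD hs).polW δ y ∈ (S.toTD hs).C := by
  obtain ⟨H, hP, hX, h0, -, hord⟩ := ho.weil
  obtain ⟨t, χ, c0, c1, c2, hsim, hC⟩ := S.exists_inert hs ho hp
  obtain ⟨e, hge, he, he0, he1, hσ, heC⟩ := exists_idem (S.toTD hs).C
    (fun j => (ho.card hO j).le) c0 c1 hsim hC (S.C_stable hs ho)
  have hT' : Tens ![(S.R t P : Matrix ν ν ℤ_[P]), (S.R s P : Matrix ν ν ℤ_[P])] := by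
    obtain ⟨A, A', h1, h2, h3, h4, h5⟩ := hT
    refine ⟨A, A', h1, h2, h3, h4, fun i => ?_⟩
    fin_cases i
    · exact h5 t
    · exact h5 s
  have hQ1 : Q.eval 1 ≠ 0 := fun h => by
    have h1 : aeval (1 : ℂ) Q = 0 := by
      rw [← map_one (algebraMap ℤ ℂ), aeval_algebraMap_apply_eq_algebraMap_eval, h, map_zero]
    have h2 := hQ.weil 1 h1
    rw [norm_one, one_pow] at h2
    exact P.2.one_lt.ne (by exact_mod_cast h2)
  rw [S.polW_eq]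
  refine matW_mem _ heC (face_int hT' hge he he0 he1 hσ (S.R s P).isUnit c0 c2 hq
    (fun i j => exists_eigen hP hX hQ.monic (fun a => (h0 a).trans (S.polV_iff hs hQ a)) hQ1 he
      hσ (S.R s P).isUnit (fun n a ha => hord hO n a fun y hy => ?_) (hr i j) ?_) hδ) y hy
  · rw [S.polW_eq]
    exact matW_mem _ heC ha y hy
  · rw [norm_mul, norm_mul, norm_pow, norm_pow, hq.nβ, hq.nu, hq.nv]
    simp

/-- `exists_den γ M'` gives `δ = P ^ j M' c γ`; `d = M' c ^ 2 M`; `Cube.ord`, `Cube.recip_dvd`,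
`Cube.face`, `polW_mem`, `main`; then `cmp` with the map `(P ^ j M' c)⁻¹ • polV δ` (an additive
map of `ℚ`-vector spaces is linear), the constant `M' c 2 ^ t`, and `sim_aeval`, `mult`. -/
theorem Setup.few (ho : Outs (S.toTD hs)) (hp : 5 ≤ P.1) {Q : ℤ[X]} (hQ : S.Weil s Q)
    (hsep : (Q.map (Int.castRingHom ℚ)).Separable)
    (hT : Tens fun t => (S.R t P : Matrix ν ν ℤ_[P])) {g g' : Matrix ν ν ℤ} {M M' : ℕ}
    {θ θ' : VA → ℂ} {v v' : (ν → Fin 2) → ℂ} (hθ : ThLine S.D.Γ g M θ v)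
    (hθ' : ThLine S.D.Γ g' M' θ' v')
    (hg : gᵀ * Matrix.J (Fin 8) ℤ * g = (M : ℤ) • Matrix.J (Fin 8) ℤ)
    (hg' : g'ᵀ * Matrix.J (Fin 8) ℤ * g' = (M' : ℤ) • Matrix.J (Fin 8) ℤ)
    (hM : ¬ P.1 ∣ M) (hM' : ¬ P.1 ∣ M') (h8 : ∀ i j, (8 : ℤ) ∣ (g - 1) i j)
    (h8' : ∀ i j, (8 : ℤ) ∣ (g' - 1) i j) {γ : ℚ[X]}
    (hC : Cube (PadicAlgCl P) P Q γ ((M : ℚ) / M'))
    (hW : ∀ l : Nat.Primes, l ≠ P → ∃ W : Matrix ν ν ℤ_[l],
      zM ℚ_[l] g' * aeval (mQ (S.R s l)) (γ.map (algebraMap ℚ ℚ_[l])) = mQ W * zM ℚ_[l] g ∧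
      ∀ a b, (8 : ℤ_[l]) ∣ (W - 1) a b) :
    SameRed S.e v v' := by
  obtain ⟨δ, j, c, hc, hδ⟩ := exists_den (p := P.1) γ M'
  have hM0 : (M' : ℚ) ≠ 0 := Nat.cast_ne_zero.2 fun e => hM' (e ▸ dvd_zero _)
  have hc0 : (c : ℚ) ≠ 0 := Nat.cast_ne_zero.2 fun e => hc (e ▸ dvd_zero _)
  have hP0 : (P.1 : ℚ) ≠ 0 := Nat.cast_ne_zero.2 P.2.ne_zero
  have h2 : ¬ P.1 ∣ 2 := fun h => S.odd ((Nat.prime_dvd_prime_iff_eq P.2 Nat.prime_two).1 h)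
  have hd : ¬ P.1 ∣ M' * c ^ 2 * M := fun h =>
    ((P.2.dvd_mul.1 h).resolve_right hM |> P.2.dvd_mul.1).elim hM'
      fun h => hc (P.2.dvd_of_dvd_pow h)
  have hdvd := hC.recip_dvd hQ.monic hsep (D := (P.1 : ℤ) ^ (2 * j) * (M' * c ^ 2 * M : ℕ)) hδ
    le_rfl (by
      push_cast
      field_simp
      ring)
  have hz := (S.polV_iff hs hQ _).2 hdvd
  have hO : (S.toTD hs).Ord := ⟨Q, (S.polV_iff hs hQ Q).2 dvd_rfl, hC.ord⟩
  obtain ⟨β, u, w, hq, hr, hP⟩ := hC.face hsep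
  obtain ⟨p1, p2⟩ := hP δ j δ.natDegree (M' * c : ℕ) hδ le_rfl
  obtain ⟨t, ht⟩ := ho.main hO δ δ.natDegree j (M' * c ^ 2 * M) le_rfl hd
    (sub_eq_zero.1 ((map_sub (aeval _) _ _).symm.trans hz))
    (S.polW_mem hs ho hp hQ hO hT hq hr p1) (S.polW_mem hs ho hp hQ hO hT hq hr p2)
  set N : ℚ := (((P.1 : ℤ) ^ j * (M' * c : ℕ) : ℤ) : ℚ) with hN
  have hN' : N = (P.1 : ℚ) ^ j * (M' * c) := by
    rw [hN]
    push_cast
    ring
  have hN0 : N ≠ 0 := hN' ▸ mul_ne_zero (pow_ne_zero _ hP0) (mul_ne_zero hM0 hc0)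
  let G : Vt P →ₗ[ℚ] Vt P := N⁻¹ • ((S.toTD hs).polV δ).toAddMonoidHom.toRatLinearMap
  have hG : ∀ x, G x = N⁻¹ • (S.toTD hs).polV δ x := fun _ => rfl
  have hG1 : ∀ (x : Vt P) (l : Nat.Primes), cV l (G x : VA) =
      ((N : ℚ_[l])⁻¹) • (aeval (mQ (S.R s l)) δ *ᵥ cV l (x : VA)) := fun x l => by
    rw [hG, Submodule.coe_smul, cV_qsmul, S.cV_polV, mQ_aeval, Rat.cast_inv]
  refine S.cmp hθ hθ' hg hg' hM hM' h8 h8' G (fun x y => Af_ext fun l => ?_) (fun l hl => ?_)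
    (c := M' * c * 2 ^ t) (fun h => ((P.2.dvd_mul.1 h).resolve_right
      (fun h => h2 (P.2.dvd_of_dvd_pow h)) |> P.2.dvd_mul.1).elim hM' hc) fun f hf => ?_
  · rw [map_mul, map_mul, cp_EB, cp_EB, map_natCast, map_natCast]
    by_cases hl : l = P
    · subst hl
      simp [cV_Vt]
    have hu : IsUnit (mQ (S.R s l : Matrix ν ν ℤ_[l])) :=
      IsUnit.of_mul_eq_one (mQ ((S.R s l)⁻¹ : GL ν ℤ_[l])) (by rw [← mQ_mul, Units.mul_inv, mQ_one])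
    have h3 := (S.polV_eq_zero hs _).1 hz l hl
    have h4 := sim_aeval hu (S.mult hs hl) le_rfl
      (by rw [← mQ_aeval, h3, faceA_zero]) (cV l (x : VA)) (cV l (y : VA))
    have h5 : (M' : ℚ) * (N⁻¹ * (N⁻¹ * ((P.1 : ℚ) ^ (2 * j) * (M' * c ^ 2 * M)))) = M := by
      rw [hN']
      field_simp
      ring
    have h6 := congrArg (Rat.cast : ℚ → ℚ_[l]) h5
    rw [hG1, hG1, EB_smul_left, EB_smul_right, h4]
    push_cast at h6 ⊢
    linear_combination EB (cV l (x : VA)) (cV l (y : VA)) * h6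
  · obtain ⟨W, h3, h4⟩ := hW l hl
    refine ⟨W, fun x => ?_, h4⟩
    rw [hG1, few_aeval _ hδ, eq_ratCast, smul_mulVec, smul_smul,
      inv_mul_cancel₀ (Rat.cast_ne_zero.2 hN0), one_smul, mulVec_mulVec, h3, mulVec_mulVec]
  · obtain ⟨h, h3, h4⟩ := ht M' hM' f hf
    refine ⟨h, ?_, fun x => ?_⟩
    · rw [show M * (M' * c * 2 ^ t) ^ 2 = M' * (M' * c ^ 2 * M) * 4 ^ t by
        rw [show 4 = 2 ^ 2 from rfl, ← pow_mul, mul_comm 2 t, pow_mul]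
        ring]
      exact h3
    · rw [h4, hG, mul_nsmul' x (M' * c), map_nsmul _ (M' * c), ← Nat.cast_smul_eq_nsmul ℚ (M' * c),
        smul_smul, hN']
      congr 3
      push_cast
      field_simp

end

end M8.B2
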