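import Pool.Agent.Lib.MP_33b3f9_ag.M8.B2.Res
import Pool.Agent.Lib.MP_33b3f9_ag.M8.B2.Lat
import Pool.Agent.Lib.MP_33b3f9_ag.M8.B2.Mu

/-!
Reduction of functions and of the pairing.
-/

set_option autoImplicit false

namespace M8.B2

open M4

open Matrix Polynomial

noncomputable section

variable {P : Nat.Primes} {ι : Type} [Fintype ι] (e : ℂ ≃+* PadicAlgCl P)

theorem norm_e_psi (x : Af) : ‖e (psi x)‖ = 1 := by
  obtain ⟨N, hN, h⟩ := exists_psi_pow x
  exact norm_root hN (by rw [← map_pow, h, map_one])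

theorem res_psi_add (x y : Af) : res (e (psi (x + y))) = res (e (psi x)) * res (e (psi y)) := by
  rw [psi_add, map_mul, res_mul (norm_e_psi e x).le (norm_e_psi e y).le]

theorem res_psi_inc (s : ℚ_[P]) : res (e (psi (inc P s))) = 1 := by
  obtain ⟨j, hj⟩ := exists_psi_pow_inc P s
  exact res_of_pow_p (j := j) (by rw [← map_pow, hj, map_one])

theorem res_psi_eq_one {x : Af} (hx : cp P x = 0) : res (e (psi x)) = 1 ↔ x ∈ Zh := by
  obtain ⟨N, hN, h⟩ := exists_psi_pow_away P hx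
  rw [← psi_eq_one]
  refine ⟨fun h1 => e.injective ?_, fun h1 => by rw [h1, map_one, res_one]⟩
  rw [eq_one_of_res hN (by rw [← map_pow, h, map_one]) h1, map_one]

theorem epsR_add_left (x y z : Vt P) : epsR e (x + y) z = epsR e x z * epsR e y z := by
  simp only [epsR, Submodule.coe_add, EB_add_left, mul_add, res_psi_add]

theorem epsR_add_right (x y z : Vt P) : epsR e x (y + z) = epsR e x y * epsR e x z := by
  simp only [epsR, Submodule.coe_add, EB_add_right, mul_add, res_psi_add]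

theorem epsR_self (x : Vt P) : epsR e x x = 1 := by
  simp [epsR]

theorem reda_pow (n : ℕ) (x y : Vt P) :
    epsR e x y ^ (2 * n) = res (e (psi ((n : Af) * EB (x : VA) (y : VA)))) := by
  rw [epsR, ← res_pow (norm_e_psi e _).le, ← map_pow, ← psi_nsmul, ← mul_assoc]
  congr 4
  rw [qA, ← map_natCast (algebraMap ℚ Af), ← map_mul, ← map_natCast (algebraMap ℚ Af)]
  congr 1
  push_cast
  ring

theorem epsR_pow (n : ℕ) (x y : Vt P) :
    epsR e x y ^ (4 * n) = res (e (psi ((2 * n : ℕ) * EB (x : VA) (y : VA)))) := by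
  rw [show 4 * n = 2 * (2 * n) by ring, reda_pow]

theorem epsR_pow_eq_one (n : ℕ) (x y : Vt P) :
    epsR e x y ^ (2 * n) = 1 ↔ (n : Af) * EB (x : VA) (y : VA) ∈ Zh := by
  rw [reda_pow, res_psi_eq_one]
  rw [map_mul, cp_EB, cV_Vt, EB_zero_left, mul_zero]

theorem epsR_perf (x : Vt P) (h : ∀ l ∈ Lam P, epsR e x l ^ 2 = 1) : x ∈ Lam P := by
  refine lam_dual P x fun l hl => ?_
  simpa using (epsR_pow_eq_one e 1 x l).1 (h l hl)

variable {e} {f g : VA → ℂ}

theorem Intg.zero : Intg e 0 := by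
  intro x; simp

theorem Intg.one : Intg e 1 := by
  intro x; simp

theorem Intg.add (hf : Intg e f) (hg : Intg e g) : Intg e (f + g) := by
  intro x
  rw [Pi.add_apply, map_add]
  exact (IsUltrametricDist.norm_add_le_max _ _).trans (max_le (hf x) (hg x))

theorem Intg.neg (hf : Intg e f) : Intg e (-f) := by
  intro x
  rw [Pi.neg_apply, map_neg, norm_neg]
  exact hf x

theorem Intg.mul (hf : Intg e f) (hg : Intg e g) : Intg e (f * g) := by
  intro x
  rw [Pi.mul_apply, map_mul, norm_mul]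
  exact mul_le_one₀ (hf x) (norm_nonneg _) (hg x)

theorem Intg.smul (hf : Intg e f) {c : ℂ} (hc : ‖e c‖ ≤ 1) : Intg e (c • f) := by
  intro x
  rw [Pi.smul_apply, smul_eq_mul, map_mul, norm_mul]
  exact mul_le_one₀ hc (norm_nonneg _) (hf x)

theorem Intg.UA (hf : Intg e f) (n : ℕ) (y : VA) : Intg e (UA n y f) := by
  intro x
  rw [UA_apply, map_mul, norm_mul, norm_e_psi, one_mul]
  exact hf _

theorem redF_zero : redF e 0 = 0 := by
  funext z; simp [redF]

theorem redF_one : redF e 1 = 1 := by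
  funext z; simp [redF]

theorem redF_add (hf : Intg e f) (hg : Intg e g) : redF e (f + g) = redF e f + redF e g := by
  funext z
  simp only [redF, Pi.add_apply, map_add, res_add (hf _) (hg _)]

theorem redF_mul (hf : Intg e f) (hg : Intg e g) : redF e (f * g) = redF e f * redF e g := by
  funext z
  simp only [redF, Pi.mul_apply, map_mul, res_mul (hf _) (hg _)]

theorem redF_smul (hf : Intg e f) {c : ℂ} (hc : ‖e c‖ ≤ 1) :
    redF e (c • f) = res (e c) • redF e f := by
  funext z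
  simp only [redF, Pi.smul_apply, smul_eq_mul, map_mul, res_mul hc (hf _)]

/-- Two lifts differ by `iV P t` with `t` integral; `per'`, `EB_iV`, `res_psi_inc`. -/
theorem redF_mk (D : TD0 ι) {n : ℕ} (hf : f ∈ D.Γ n) (hi : Intg e f) (x : Vt P)
    (s : ν → ℚ_[P]) : redF e f (x, (s : WW P)) = res (e (f (x + iV P s))) := by
  obtain ⟨t, ht⟩ := QuotientAddGroup.mk_out_eq_add (IV P) s
  simp only [redF, lift]
  rw [ht, map_add, ← add_assoc, D.per' hf (iV_mem_TA.2 t.2), map_mul,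
    res_mul (norm_e_psi e _).le (hi _), EB_iV, ← nsmul_eq_mul, ← map_nsmul, ← map_neg, res_psi_inc,
    one_mul]

theorem redF_away (D : TD0 ι) {n : ℕ} (hf : f ∈ D.Γ n) (hi : Intg e f) (x : VA) :
    redF e f (away P x, (cV P x : WW P)) = res (e (f x)) := by
  rw [redF_mk D hf hi, away_add_iV]

theorem redF_zero_right (D : TD0 ι) {n : ℕ} (hf : f ∈ D.Γ n) (hi : Intg e f) (x : Vt P) :
    redF e f (x, 0) = res (e (f x)) := by
  simpa using redF_mk D hf hi x 0

theorem redF_UA (D : TD0 ι) {n : ℕ} (hf : f ∈ D.Γ n) (hi : Intg e f) (y : VA) :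
    redF e (UA n y f) = CP.Uop (epsR e) n (away P y, (cV P y : WW P)) (redF e f) := by
  funext ⟨x, w⟩
  have h1 : w + (cV P y : WW P) = ((w.out + cV P y : ν → ℚ_[P]) : WW P) := by
    rw [QuotientAddGroup.mk_add, QuotientAddGroup.out_eq']
  have h2 : EB y ((x : VA) + iV P w.out) =
      EB (away P y : VA) x + EB (iV P (cV P y)) ((x : VA) + iV P w.out) := by
    conv_lhs => rw [← away_add_iV P y, EB_add_left, EB_add_right, EB_Vt_iV, add_zero]
  have h3 : (x : VA) + iV P w.out + y = ((x + away P y : Vt P) : VA) + iV P (w.out + cV P y) := by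
    conv_lhs => rw [← away_add_iV P y]
    rw [Submodule.coe_add, map_add]
    abel
  simp only [CP.Uop, Prod.mk_add_mk]
  rw [h1, redF_mk D hf hi, epsR_pow, ← h3]
  simp only [redF, lift]
  rw [UA_apply, map_mul, res_mul (norm_e_psi e _).le (hi _), h2, mul_add, res_psi_add, EB_iV,
    ← nsmul_eq_mul _ (inc P _), ← map_nsmul, res_psi_inc, mul_one]

/-- The reductions of the integral sections. -/
def GG (D : TD0 ι) (e : ℂ ≃+* PadicAlgCl P) (n : ℕ) : Submodule (kk P) (Vt P × WW P → kk P) where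
  carrier := {g | ∃ f ∈ D.Γ n, Intg e f ∧ redF e f = g}
  zero_mem' := ⟨0, zero_mem _, Intg.zero, redF_zero⟩
  add_mem' := by
    rintro _ _ ⟨f, hf, hi, rfl⟩ ⟨g, hg, hj, rfl⟩
    exact ⟨f + g, add_mem hf hg, hi.add hj, redF_add hi hj⟩
  smul_mem' := by
    rintro a _ ⟨f, hf, hi, rfl⟩
    obtain ⟨c, hc, rfl⟩ := res_surj a
    have h : ‖e (e.symm c)‖ ≤ 1 := by rwa [e.apply_symm_apply]
    exact ⟨e.symm c • f, Submodule.smul_mem _ _ hf, hi.smul h, by
      rw [redF_smul hi h, e.apply_symm_apply]⟩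

theorem mem_GG {D : TD0 ι} {n : ℕ} {g : Vt P × WW P → kk P} :
    g ∈ GG D e n ↔ ∃ f ∈ D.Γ n, Intg e f ∧ redF e f = g := Iff.rfl

/-- Let `N z` be the maximum of the `‖e (X i z)‖`. `law` at `(a, i0, z, z)` gives
`N (2 z) ≤ N z ^ 4`, `dup` gives `N z ^ 4 ≤ N (2 z)`; `N` is positive (`bpf`) and periodic
(`per'`), and `2 ^ i • z - 2 ^ j • z ∈ TA` for some `i < j` (`2 ^ i = 2 ^ j` modulo `N`,
`exists_nsmul_mem_TA`). -/
theorem Setup.bound (S : Setup P ι) (x : VA) :
    (∀ i, ‖S.e (S.D.X i x)‖ ≤ 1) ∧ ∃ i, ‖S.e (S.D.X i x)‖ = 1 := by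
  have h0 := fun z : VA => Finset.exists_max_image Finset.univ (fun i => ‖S.e (S.D.X i z)‖)
    ⟨S.D.i0, Finset.mem_univ _⟩
  choose m _ hm using h0
  obtain ⟨N, hN⟩ : ∃ N : VA → ℝ, ∀ z, N z = ‖S.e (S.D.X (m z) z)‖ := ⟨_, fun _ => rfl⟩
  have h1 : ∀ z i, ‖S.e (S.D.X i z)‖ ≤ N z := fun z i => hN z ▸ hm z i (Finset.mem_univ _)
  have h2 : ∀ z, 0 < N z := fun z => by
    obtain ⟨i, hi⟩ := S.D.bpf z
    exact (norm_pos_iff.2 ((_root_.map_ne_zero _).2 hi)).trans_le (h1 z i)
  have h3 : ∀ z, N (z + z) = N z ^ 4 := fun z => by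
    refine le_antisymm ?_ ?_
    · have h := S.D.law (m (z + z)) S.D.i0 z z
      rw [sub_self, S.D.X_zero, mul_one] at h
      have h4 : 0 ≤ N z ^ 4 := pow_nonneg (h2 z).le 4
      rw [hN, h]
      simp only [map_sum]
      refine IsUltrametricDist.norm_sum_le_of_forall_le_of_nonneg h4 fun i _ =>
        IsUltrametricDist.norm_sum_le_of_forall_le_of_nonneg h4 fun j _ =>
        IsUltrametricDist.norm_sum_le_of_forall_le_of_nonneg h4 fun l _ =>
        IsUltrametricDist.norm_sum_le_of_forall_le_of_nonneg h4 fun n _ => ?_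
      simp only [map_mul, norm_mul]
      have h5 := (h2 z).le
      calc _ ≤ 1 * (N z * N z) * (N z * N z) := by
            gcongr
            exacts [S.good_cl _ _ _ _ _ _, h1 _ _, h1 _ _, h1 _ _, h1 _ _]
        _ = _ := by ring
    · rw [hN z, ← norm_pow, ← map_pow, S.D.dup, map_sum]
      refine IsUltrametricDist.norm_sum_le_of_forall_le_of_nonneg (h2 _).le fun b _ => ?_
      rw [map_mul, norm_mul]
      exact (mul_le_of_le_one_left (norm_nonneg _) (S.good_cd _ _)).trans (h1 _ _)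
  have h4 : ∀ z, ∀ l ∈ TA, N (z + l) = N z := fun z l hl => by
    have h : ∀ i, ‖S.e (S.D.X i (z + l))‖ = ‖S.e (S.D.X i z)‖ := fun i => by
      rw [S.D.per' (S.D.X_mem i) hl, map_mul, norm_mul, norm_e_psi, one_mul]
    exact le_antisymm (by rw [hN, h]; exact h1 _ _) (by rw [hN z, ← h]; exact h1 _ _)
  have h5 : ∀ k : ℕ, N (2 ^ k • x) = N x ^ 4 ^ k := fun k => by
    induction k with
    | zero => simp
    | succ k ih => rw [pow_succ', mul_smul, two_smul, h3, ih, ← pow_mul, pow_succ]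
  have h6 : N x = 1 := by
    by_contra hx
    obtain ⟨M, hM, hMx⟩ := exists_nsmul_mem_TA x
    have : NeZero M := ⟨hM.ne'⟩
    have key : ∀ i j : ℕ, i < j → ((2 ^ i : ℕ) : ZMod M) = ((2 ^ j : ℕ) : ZMod M) → False := by
      intro i j hij h
      obtain ⟨c, hc⟩ := (Nat.modEq_iff_exists_eq_add
        (Nat.pow_le_pow_right two_pos hij.le)).1 ((ZMod.natCast_eq_natCast_iff _ _ _).1 h)
      have h7 := h5 j
      rw [hc, add_smul, mul_comm, mul_smul, h4 _ _ (TA.nsmul_mem hMx c), h5] at h7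
      exact hij.ne (Nat.pow_right_injective (by norm_num : 2 ≤ 4)
        (pow_right_injective₀ (h2 x) hx h7))
    obtain ⟨i, j, hij, h⟩ :=
      Finite.exists_ne_map_eq_of_infinite fun i : ℕ => ((2 ^ i : ℕ) : ZMod M)
    rcases lt_or_gt_of_ne hij with h' | h'
    exacts [key i j h' h, key j i h' h.symm]
  exact ⟨fun i => h6 ▸ h1 x i, m x, (hN x).symm.trans h6⟩

theorem Setup.intg_X (S : Setup P ι) (i : ι) : Intg S.e (S.D.X i) := fun x => (S.bound x).1 i

end

end M8.B2
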