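import Pool.Agent.Lib.MP_33b3f9_ag.M8.B2.RedA

/-!
Closure properties of the reduced spaces.
-/

set_option autoImplicit false

namespace M8.B2

open M4

open Matrix Polynomial

noncomputable section

variable {P : Nat.Primes} {ι : Type} [Fintype ι] (D : TD0 ι) (e : ℂ ≃+* PadicAlgCl P)

/-- The projection from the adelic space. -/
def redbPr (P : Nat.Primes) : VA →+ Vt P × WW P where
  toFun x := (away P x, (cV P x : WW P))
  map_zero' := Prod.ext (map_zero _) (by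
    have : cV P 0 = 0 := by funext i; simp [cV]
    simp [this])
  map_add' x y := Prod.ext (map_add _ _ _) (by simp [cV_add])

theorem redb_pr (x : VA) : redbPr P x = (away P x, (cV P x : WW P)) := rfl

theorem redb_Vt (x : Vt P) : redbPr P (x : VA) = (x, 0) := by
  rw [redb_pr, away_coe, cV_Vt]
  rfl

theorem redb_iV (s : ν → ℚ_[P]) : redbPr P (iV P s) = (0, (s : WW P)) := by
  rw [redb_pr, cV_iV_self]
  exact Prod.ext (Subtype.ext (by simp [coe_away])) rfl

theorem redb_lift (z : Vt P × WW P) : redbPr P (lift z) = z := by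
  rw [lift, map_add, redb_Vt, redb_iV, QuotientAddGroup.out_eq']
  simp

theorem redb_out {N : ℕ} {y : WW P} (h : N • y = 0) : N • iV P y.out ∈ TA := by
  rw [← map_nsmul, iV_mem_TA, ← QuotientAddGroup.eq_zero_iff, QuotientAddGroup.mk_nsmul,
    QuotientAddGroup.out_eq', h]

theorem GG_one : (1 : Vt P × WW P → kk P) ∈ GG D e 0 := by
  exact ⟨1, D.one_mem, Intg.one, redF_one⟩

theorem GG_mul (n m : ℕ) (f g : Vt P × WW P → kk P) (hf : f ∈ GG D e n) (hg : g ∈ GG D e m) :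
    f * g ∈ GG D e (n + m) := by
  obtain ⟨f, hf, hi, rfl⟩ := hf
  obtain ⟨g, hg, hj, rfl⟩ := hg
  exact ⟨f * g, D.mul_mem _ _ _ _ hf hg, hi.mul hj, redF_mul hi hj⟩

/-- `redF_UA` with `y = lift u`. -/
theorem GG_tr (n : ℕ) (u : Vt P × WW P) (h1 : (4 * n) • u.1 ∈ Lam P) (h2 : (4 * n) • u.2 = 0)
    (f : Vt P × WW P → kk P) (hf : f ∈ GG D e n) : CP.Uop (epsR e) n u f ∈ GG D e n := by
  obtain ⟨f, hf, hi, rfl⟩ := hf
  refine ⟨UA n (lift u) f, D.tr n _ ?_ f hf, hi.UA n _, ?_⟩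
  · rw [lift, nsmul_add]
    exact TA.add_mem h1 (redb_out h2)
  · rw [redF_UA D hf hi, ← redb_pr, redb_lift]

theorem GG_per (n : ℕ) (l : Vt P) (hl : l ∈ Lam P) (f : Vt P × WW P → kk P)
    (hf : f ∈ GG D e n) : CP.Uop (epsR e) n (l, 0) f = f := by
  obtain ⟨f, hf, hi, rfl⟩ := hf
  rw [← redb_Vt, redb_pr, ← redF_UA D hf hi, D.per n l hl f hf]

theorem redF_comp {n : ℕ} {f : VA → ℂ} (hf : f ∈ D.Γ n) (hi : Intg e f) (c : ℤ) :
    redF e (fun z => f (c • z)) = fun z => redF e f (c • z) := by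
  funext z
  rw [redF, ← redF_away D hf hi, ← redb_pr, map_zsmul, redb_lift]

theorem GG_mulc (n : ℕ) (c : ℤ) (f : Vt P × WW P → kk P) (hf : f ∈ GG D e n) :
    (fun z => f (c • z)) ∈ GG D e (n * c.natAbs ^ 2) := by
  obtain ⟨f, hf, hi, rfl⟩ := hf
  exact ⟨fun z => f (c • z), D.mul n c f hf, fun x => hi _, redF_comp D e hf hi c⟩

theorem redb_UA_pow (n k : ℕ) (y : VA) (f : VA → ℂ) : UA (n * k) y (f ^ k) = UA n y f ^ k := by
  funext x
  rw [Pi.pow_apply, UA_apply, UA_apply, mul_pow, ← psi_nsmul, Pi.pow_apply]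
  congr 2
  push_cast
  ring

theorem redb_UA_prod {α : Type} (s : Finset α) (n : ℕ) (y : VA) (f : α → VA → ℂ) :
    UA (n * s.card) y (∏ a ∈ s, f a) = ∏ a ∈ s, UA n y (f a) := by
  funext x
  simp only [Finset.prod_apply, UA_apply, Finset.prod_mul_distrib, Finset.prod_const]
  rw [← psi_nsmul]
  congr 2
  push_cast
  ring

theorem redb_psi {q : ℕ} (n : ℕ) {x y : VA} (hx : q • x ∈ TA) (hy : q • y ∈ TA) :
    psi ((2 * n : ℕ) * EB x y) ^ q ^ 2 = 1 := by
  rw [← psi_nsmul, psi_eq_one]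
  have h := Zh.mul_mem (natCast_mem Zh (2 * n)) (EB_mem hx hy)
  rw [← Nat.cast_smul_eq_nsmul Af, ← Nat.cast_smul_eq_nsmul Af, EB_smul_left, EB_smul_right] at h
  convert h using 1
  push_cast
  ring

theorem redb_step {n j : ℕ} {f : VA → ℂ} (hf : f ∈ D.Γ n) {t : VA} (ht : P.1 ^ j • t ∈ TA)
    {y : WW P} (hy : P.1 ^ j • y = 0) (hy' : P.1 ^ j • (y + (cV P t : WW P)) = 0) :
    UA n t (UA n (iV P y.out) f) ^ (P.1 ^ j) ^ 2 =
      UA n (iV P (y + (cV P t : WW P)).out) f ^ (P.1 ^ j) ^ 2 := by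
  set a := iV P (y + (cV P t : WW P)).out with ha
  have hl : t + iV P y.out - a ∈ TA := by
    have h1 : away P t ∈ Lam P := lat_pow P _ j (by rw [← map_nsmul]; exact away_mem_Lam P ht)
    have h2 : iV P (cV P t + y.out - (y + (cV P t : WW P)).out) ∈ TA := by
      rw [iV_mem_TA, ← QuotientAddGroup.eq_zero_iff, QuotientAddGroup.mk_sub,
        QuotientAddGroup.mk_add, QuotientAddGroup.out_eq', QuotientAddGroup.out_eq', add_comm,
        sub_self]
    have h3 := TA.add_mem (mem_Lam.1 h1) h2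
    rwa [map_sub, map_add, ← add_sub_assoc, ← add_assoc, away_add_iV] at h3
  have h4 := UA_UA n a (t + iV P y.out - a) f
  rw [D.per n _ hl f hf, add_sub_cancel] at h4
  rw [h4, UA_UA, _root_.smul_pow, _root_.smul_pow, redb_psi n (redb_out hy) ht,
    redb_psi n (TA.nsmul_mem hl _) (redb_out hy')]

theorem redb_intg_pow {f : VA → ℂ} (hi : Intg e f) (k : ℕ) : Intg e (f ^ k) := fun x => by
  rw [Pi.pow_apply, map_pow, norm_pow]
  exact pow_le_one₀ (norm_nonneg _) (hi x)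

theorem redb_intg_prod {α : Type} (s : Finset α) {f : α → VA → ℂ} (hi : ∀ a, Intg e (f a)) :
    Intg e (∏ a ∈ s, f a) := fun x => by
  rw [Finset.prod_apply, map_prod, norm_prod]
  exact Finset.prod_le_one (fun _ _ => norm_nonneg _) fun a _ => hi a x

/-- With `q = P ^ j` let `F = ∏ y ∈ T, UA n (iV P y.out) f`, of level `n * q ^ 16` (`W_card`,
`prod_mem`). For `q • t ∈ TA` and `y ∈ T`: `UA n t (UA n (iV P y.out) f) = c • UA n (iV P y'.out) f`
with `y' = y + cV P t` and `c ^ (q ^ 2) = 1` (`UA_UA`, `per`). So `F ^ (q ^ 2)` is invariant; use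
`desc`; the descended function is integral because multiplication by `q` is onto. -/
theorem GG_norm (j n : ℕ) (T : Finset (WW P)) (hT : ∀ y, y ∈ T ↔ P.1 ^ j • y = 0)
    (f : Vt P × WW P → kk P) (hf : f ∈ GG D e n) :
    ∃ g ∈ GG D e (n * P.1 ^ (16 * j)), ∀ z : Vt P × WW P,
      (∏ y ∈ T, f (z + (0, y))) ^ P.1 ^ (2 * j) = g (P.1 ^ j • z) := by
  obtain ⟨f, hf, hi, rfl⟩ := hf
  have hq : 0 < P.1 ^ j := pow_pos P.2.pos j
  have hc : T.card = P.1 ^ (16 * j) := by
    rw [← W_card P j, ← Nat.card_eq_finsetCard]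
    exact Nat.card_congr (Equiv.subtypeEquivRight hT)
  set F : VA → ℂ := ∏ y ∈ T, UA n (iV P y.out) f with hF
  have h1 : F ^ (P.1 ^ j) ^ 2 ∈ D.Γ (n * P.1 ^ (16 * j) * (P.1 ^ j) ^ 2) := by
    have h2 : ∏ y ∈ T, UA n (iV P y.out) f ^ P.1 ^ j ∈ D.Γ (n * P.1 ^ j * T.card) :=
      D.prod_mem T fun y hy => by
        rw [← redb_UA_pow]
        refine D.tr _ _ ?_ _ (D.pow_mem hf _)
        rw [← mul_assoc, mul_nsmul']
        exact TA.nsmul_mem (redb_out ((hT y).1 hy)) _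
    have h3 := D.pow_mem h2 (P.1 ^ j)
    rw [Finset.prod_pow, ← pow_mul, ← sq, hc] at h3
    convert h3 using 2
    ring
  obtain ⟨g, hg, hgF⟩ := D.desc _ _ hq _ h1 fun t ht => by
    have h0 : P.1 ^ j • (cV P t : WW P) = 0 := by
      rw [← QuotientAddGroup.mk_nsmul, QuotientAddGroup.eq_zero_iff, ← Nat.cast_smul_eq_nsmul ℚ_[P],
        ← cV_nsmul]
      exact mem_TA_iff.1 ht P
    rw [redb_UA_pow, ← hc, hF, redb_UA_prod, ← Finset.prod_pow, ← Finset.prod_pow]
    refine Finset.prod_equiv (Equiv.addRight (cV P t : WW P)) (fun y => ?_) fun y hy => ?_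
    · rw [hT, hT, Equiv.coe_addRight, nsmul_add, h0, add_zero]
    · have h4 := (hT y).1 hy
      exact redb_step D hf ht h4 (by rw [nsmul_add, h0, h4, add_zero])
  have hFi : Intg e F := redb_intg_prod e T fun y => hi.UA n _
  have hgi : Intg e g := fun x => by
    have h5 : x = P.1 ^ j • (((P.1 ^ j : ℕ) : ℚ)⁻¹ • x) := by
      rw [← Nat.cast_smul_eq_nsmul ℚ, smul_inv_smul₀ (Nat.cast_ne_zero.2 hq.ne')]
    rw [h5, ← hgF]
    exact redb_intg_pow e hFi _ _
  refine ⟨redF e g, ⟨g, hg, hgi, rfl⟩, fun z => ?_⟩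
  have h6 : redF e g (P.1 ^ j • z) = res (e (g (P.1 ^ j • lift z))) := by
    rw [← redF_away D hg hgi, ← redb_pr, map_nsmul, redb_lift]
  rw [h6, ← hgF, Pi.pow_apply, map_pow, res_pow (hFi _), ← pow_mul, mul_comm j 2, hF,
    Finset.prod_apply, map_prod, res_prod T fun y _ => hi.UA n _ _]
  congr 1
  refine Finset.prod_congr rfl fun y _ => ?_
  have h7 := congrFun (redF_UA D hf hi (iV P y.out)) z
  rw [← redb_pr, redb_iV, QuotientAddGroup.out_eq'] at h7
  refine Eq.trans ?_ h7.symm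
  simp [CP.Uop, epsR]

variable (S : Setup P ι)

theorem Setup.X_mem (i : ι) : redF S.e (S.D.X i) ∈ GG S.D S.e 1 :=
  ⟨_, S.D.X_mem i, S.intg_X i, rfl⟩

theorem Setup.bpf (z : Vt P × WW P) : ∃ i, redF S.e (S.D.X i) z ≠ 0 := by
  obtain ⟨i, hi⟩ := (S.bound (lift z)).2
  exact ⟨i, fun h => hi.not_lt ((res_eq_zero hi.le).1 h)⟩

/-- The values of the coordinates in the valuation ring. -/
def Setup.redbX (i : ι) (x : VA) : OO P := ⟨S.e (S.D.X i x), mem_OO.2 (S.intg_X i x)⟩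

theorem Setup.redb_X (i : ι) (x : VA) :
    redF S.e (S.D.X i) (redbPr P x) = IsLocalRing.residue (OO P) (S.redbX i x) :=
  (redF_away S.D (S.D.X_mem i) (S.intg_X i) x).trans (res_coe (S.redbX i x))

theorem Setup.law (a b : ι) : ∃ c : ι → ι → ι → ι → kk P, ∀ z z',
    redF S.e (S.D.X a) (z + z') * redF S.e (S.D.X b) (z - z') =
      ∑ i, ∑ j, ∑ l, ∑ m, c i j l m * (redF S.e (S.D.X i) z * redF S.e (S.D.X j) z) *
        (redF S.e (S.D.X l) z' * redF S.e (S.D.X m) z') := by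
  let c : ι → ι → ι → ι → OO P := fun i j l m =>
    ⟨S.e (S.D.cl a b i j l m), mem_OO.2 (S.good_cl a b i j l m)⟩
  refine ⟨fun i j l m => IsLocalRing.residue (OO P) (c i j l m), fun z z' => ?_⟩
  have h1 : z - z' = redbPr P (lift z - lift z') := by rw [map_sub, redb_lift, redb_lift]
  rw [h1, ← redb_lift z, ← redb_lift z', ← map_add, redb_lift z, redb_lift z']
  conv_rhs => rw [← redb_lift z, ← redb_lift z']
  simp only [S.redb_X, ← map_mul, ← map_sum]
  congr 1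
  refine Subtype.ext ?_
  have h := congrArg S.e (S.D.law a b (lift z) (lift z'))
  simp only [map_mul, map_sum] at h
  simpa [Setup.redbX, c] using h

theorem Setup.dup (a : ι) : ∃ c : ι → kk P, ∀ z,
    redF S.e (S.D.X a) z ^ 4 = ∑ b, c b * redF S.e (S.D.X b) (z + z) := by
  let c : ι → OO P := fun b => ⟨S.e (S.D.cd a b), mem_OO.2 (S.good_cd a b)⟩
  refine ⟨fun b => IsLocalRing.residue (OO P) (c b), fun z => ?_⟩
  rw [← redb_lift z, ← map_add]
  simp only [S.redb_X, ← map_mul, ← map_sum, ← map_pow]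
  congr 1
  refine Subtype.ext ?_
  have h := congrArg S.e (S.D.dup a (lift z))
  simp only [map_mul, map_sum, map_pow] at h
  simpa [Setup.redbX, c] using h

end

end M8.B2
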